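import Pool.Agent.LibCD87.Defs
set_option autoImplicit false
namespace Pool.Agent.LibCD87

/-- GREEDY EXTENSION. Plan: induction on the card of S ⊇ W: for each S with W ⊆ S there is f : V → V', injective on S, into U on S,
with ¬ R.Adj (f u) (f v) for adjacent u, v ∈ S. Step: S ≠ W, take v ∈ S \ W with at most d neighbours in S, apply the induction hypothesis
to S.erase v (W ⊆ S.erase v), choose a new value for v in U minus f(S.erase v) minus the R-neighbourhoods of the f u (u ∈ S, H.Adj u v):
at most card V + d D points are forbidden. -/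
theorem greedy {V V' : Type*} [Fintype V] [DecidableEq V] [Fintype V'] [DecidableEq V']
    (H : SimpleGraph V) (R : SimpleGraph V') [DecidableRel H.Adj] [DecidableRel R.Adj]
    (U : Finset V') (D d : ℕ) (hU : ∀ u ∈ U, R.degree u ≤ D)
    (hc : Fintype.card V + d * D < U.card) (W : Finset V)
    (hd : ∀ S : Finset V, W ⊆ S → S ≠ W → ∃ v ∈ S, v ∉ W ∧ (S.filter (fun u => H.Adj v u)).card ≤ d)
    (f : V → V') (hfU : ∀ u ∈ W, f u ∈ U) (hfi : ∀ u ∈ W, ∀ v ∈ W, f u = f v → u = v)
    (hfa : ∀ u ∈ W, ∀ v ∈ W, H.Adj u v → ¬ R.Adj (f u) (f v)) :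
    ∃ g : H →g Rᶜ, Function.Injective g := by
  classical
  have key : ∀ S : Finset V, W ⊆ S → ∃ f' : V → V', (∀ u ∈ S, f' u ∈ U) ∧
      (∀ u ∈ S, ∀ v ∈ S, f' u = f' v → u = v) ∧
      (∀ u ∈ S, ∀ v ∈ S, H.Adj u v → ¬ R.Adj (f' u) (f' v)) := by
    intro S
    induction S using Finset.strongInduction with
    | H S ih =>
      intro hWS
      by_cases hS : S = W
      · subst hS
        exact ⟨f, hfU, hfi, hfa⟩
      obtain ⟨v, hvS, hvW, hvd⟩ := hd S hWS hS
      have hsub : W ⊆ S.erase v := by
        intro w hw
        refine Finset.mem_erase.2 ⟨?_, hWS hw⟩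
        rintro rfl
        exact hvW hw
      obtain ⟨f', h1, h2, h3⟩ := ih (S.erase v) (Finset.erase_ssubset hvS) hsub
      have hmem : ∀ u ∈ S.filter (fun u => H.Adj v u), u ∈ S.erase v := by
        intro u hu
        rw [Finset.mem_filter] at hu
        exact Finset.mem_erase.2 ⟨(hu.2.ne).symm, hu.1⟩
      have hF : ((S.erase v).image f' ∪
          ((S.filter (fun u => H.Adj v u)).biUnion (fun u => R.neighborFinset (f' u)))).card
          < U.card := by
        refine lt_of_le_of_lt (Finset.card_union_le _ _) (lt_of_le_of_lt (Nat.add_le_add ?_ ?_) hc)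
        · exact Finset.card_image_le.trans (Finset.card_le_univ _)
        · refine (Finset.card_biUnion_le_card_mul _ _ D ?_).trans (Nat.mul_le_mul_right D hvd)
          intro u hu
          exact hU _ (h1 u (hmem u hu))
      obtain ⟨z, hzU, hzF⟩ := Finset.exists_mem_notMem_of_card_lt_card hF
      rw [Finset.mem_union, not_or] at hzF
      obtain ⟨hz1, hz2⟩ := hzF
      have hz1' : ∀ u ∈ S.erase v, f' u ≠ z := fun u hu h => hz1 (Finset.mem_image.2 ⟨u, hu, h⟩)
      have hz2' : ∀ u ∈ S, H.Adj v u → ¬ R.Adj (f' u) z := by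
        intro u hu huv h
        refine hz2 (Finset.mem_biUnion.2 ⟨u, Finset.mem_filter.2 ⟨hu, huv⟩, ?_⟩)
        rw [SimpleGraph.mem_neighborFinset]
        exact h
      refine ⟨Function.update f' v z, ?_, ?_, ?_⟩
      · intro u hu
        by_cases huv : u = v
        · subst huv; simpa using hzU
        · rw [Function.update_of_ne huv]; exact h1 u (Finset.mem_erase.2 ⟨huv, hu⟩)
      · intro u hu w hw h
        by_cases huv : u = v
        · by_cases hwv : w = v
          · rw [huv, hwv]
          · subst huv
            rw [Function.update_self, Function.update_of_ne hwv] at h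
            exact absurd h.symm (hz1' w (Finset.mem_erase.2 ⟨hwv, hw⟩))
        · by_cases hwv : w = v
          · subst hwv
            rw [Function.update_self, Function.update_of_ne huv] at h
            exact absurd h (hz1' u (Finset.mem_erase.2 ⟨huv, hu⟩))
          · rw [Function.update_of_ne huv, Function.update_of_ne hwv] at h
            exact h2 u (Finset.mem_erase.2 ⟨huv, hu⟩) w (Finset.mem_erase.2 ⟨hwv, hw⟩) h
      · intro u hu w hw h
        by_cases huv : u = v
        · subst huv
          have hwv : w ≠ u := h.ne.symm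
          rw [Function.update_self, Function.update_of_ne hwv]
          exact fun h' => hz2' w hw h h'.symm
        · by_cases hwv : w = v
          · subst hwv
            rw [Function.update_self, Function.update_of_ne huv]
            exact hz2' u hu h.symm
          · rw [Function.update_of_ne huv, Function.update_of_ne hwv]
            exact h3 u (Finset.mem_erase.2 ⟨huv, hu⟩) w (Finset.mem_erase.2 ⟨hwv, hw⟩) h
  obtain ⟨g, _, g2, g3⟩ := key Finset.univ (Finset.subset_univ _)
  have ginj : Function.Injective g := fun u v h => g2 u (Finset.mem_univ _) v (Finset.mem_univ _) h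
  refine ⟨⟨g, ?_⟩, ginj⟩
  intro u v h
  rw [SimpleGraph.compl_adj]
  exact ⟨fun h' => h.ne (ginj h'), g3 u (Finset.mem_univ _) v (Finset.mem_univ _) h⟩

end Pool.Agent.LibCD87
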