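import Pool.Agent.LibCD87.Defs
set_option autoImplicit false
namespace Pool.Agent.LibCD87

/-- LOW DEGREES. Plan: D = 4 * (sum of degrees) / N + ... : vertices with N * degree > 4 * sum... count; here: if T = Σ degree, then the
vertices with N * degree v ≤ 2 T are at least half: the others are fewer than N/2 because N/2 * (2T/N) = T. -/
theorem low {V : Type*} [Fintype V] [DecidableEq V] (R : SimpleGraph V) [DecidableRel R.Adj] :
    Fintype.card V ≤ 2 * ((Finset.univ : Finset V).filter
      (fun v => Fintype.card V * R.degree v ≤ 2 * ∑ w : V, R.degree w)).card := by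
  classical
  set N := Fintype.card V with hN
  set T := ∑ w : V, R.degree w with hT
  have hsplit := Finset.card_filter_add_card_filter_not (s := (Finset.univ : Finset V)) (fun v => N * R.degree v ≤ 2 * T)
  rw [Finset.card_univ, ← hN] at hsplit
  set a := ((Finset.univ : Finset V).filter (fun v => N * R.degree v ≤ 2 * T)).card with ha
  set b := ((Finset.univ : Finset V).filter (fun v => ¬ N * R.degree v ≤ 2 * T)).card with hb
  by_contra hlt
  push Not at hlt
  have h1 : b * (2 * T + 1) ≤ ∑ v ∈ (Finset.univ : Finset V).filter (fun v => ¬ N * R.degree v ≤ 2 * T), N * R.degree v := by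
    rw [hb, ← smul_eq_mul]
    refine Finset.card_nsmul_le_sum _ _ _ fun v hv => ?_
    have := (Finset.mem_filter.1 hv).2
    omega
  have h2 : ∑ v ∈ (Finset.univ : Finset V).filter (fun v => ¬ N * R.degree v ≤ 2 * T), N * R.degree v ≤ N * T := by
    rw [← Finset.mul_sum]
    refine Nat.mul_le_mul_left _ ?_
    exact Finset.sum_le_sum_of_subset (Finset.filter_subset _ _)
  have h3 : N + 1 ≤ 2 * b := by omega
  have h4 : (N + 1) * (2 * T + 1) ≤ 2 * (N * T) := by
    calc (N + 1) * (2 * T + 1) ≤ 2 * b * (2 * T + 1) := Nat.mul_le_mul_right _ h3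
      _ = 2 * (b * (2 * T + 1)) := by ring
      _ ≤ 2 * (N * T) := Nat.mul_le_mul_left _ (h1.trans h2)
  nlinarith [h4]

end Pool.Agent.LibCD87
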