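import Mathlib
set_option autoImplicit false
namespace Pool.Agent.LibCD87

/-- the graph of the 3-cube, exactly as in the frozen statement -/
abbrev cube : SimpleGraph (Fin 3 → Bool) :=
  SimpleGraph.fromRel (fun x y : Fin 3 → Bool => hammingDist x y = 1)

/-- a bipartite relation without a hexagon -/
def HexFree {α β : Type*} (E : Finset (α × β)) : Prop :=
  ¬ ∃ x1 x2 x3 : α, ∃ y1 y2 y3 : β, x1 ≠ x2 ∧ x1 ≠ x3 ∧ x2 ≠ x3 ∧ y1 ≠ y2 ∧ y1 ≠ y3 ∧ y2 ≠ y3 ∧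
    (x1, y1) ∈ E ∧ (x2, y1) ∈ E ∧ (x2, y2) ∈ E ∧ (x3, y2) ∈ E ∧ (x3, y3) ∈ E ∧ (x1, y3) ∈ E

/-- a bipartite relation without a 3-cube -/
def CubeFree {α β : Type*} (E : Finset (α × β)) : Prop :=
  ¬ ∃ x b1 b2 b3 : α, ∃ y a1 a2 a3 : β,
    x ≠ b1 ∧ x ≠ b2 ∧ x ≠ b3 ∧ b1 ≠ b2 ∧ b1 ≠ b3 ∧ b2 ≠ b3 ∧
    y ≠ a1 ∧ y ≠ a2 ∧ y ≠ a3 ∧ a1 ≠ a2 ∧ a1 ≠ a3 ∧ a2 ≠ a3 ∧
    (x, a1) ∈ E ∧ (x, a2) ∈ E ∧ (x, a3) ∈ E ∧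
    (b1, a1) ∈ E ∧ (b1, a2) ∈ E ∧ (b2, a2) ∈ E ∧ (b2, a3) ∈ E ∧ (b3, a3) ∈ E ∧ (b3, a1) ∈ E ∧
    (b1, y) ∈ E ∧ (b2, y) ∈ E ∧ (b3, y) ∈ E

section
variable {α β : Type*} [DecidableEq α] [DecidableEq β]

/-- degree of a left vertex inside `Y` -/
def dl (E : Finset (α × β)) (Y : Finset β) (x : α) : ℕ := (Y.filter (fun y => (x, y) ∈ E)).card
/-- degree of a right vertex inside `X` -/
def dr (E : Finset (α × β)) (X : Finset α) (y : β) : ℕ := (X.filter (fun x => (x, y) ∈ E)).card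

/-- the edges (b,a) with x ~ a, b ~ y, b ≠ x, a ≠ y -/
def B (E : Finset (α × β)) (x : α) (y : β) : Finset (α × β) :=
  E.filter (fun e => (x, e.2) ∈ E ∧ (e.1, y) ∈ E ∧ e.1 ≠ x ∧ e.2 ≠ y)

end

end Pool.Agent.LibCD87
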