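import Pool.Agent.LibCD87.All
set_option autoImplicit false
namespace Pool.Agent.LibCD87
open Classical

def RC {N : ℕ} (R : SimpleGraph (Fin N)) : Prop :=
  ∃ f : SimpleGraph.fromRel (fun x y : Fin 3 → Bool => hammingDist x y = 1) →g R, Function.Injective f

theorem exists_U : ∃ K : ℕ, 1 ≤ K ∧ ∀ (N : ℕ) (R : SimpleGraph (Fin N)), 0 < N → ¬ RC R →
    ∃ (U : Finset (Fin N)) (D : ℕ), N ≤ 2 * U.card ∧ (∀ u ∈ U, R.degree u ≤ D) ∧ D ^ 5 ≤ K * N ^ 3 := by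
  refine ⟨32 * (4 ^ 5 * (36000 * 2 ^ 8)), by norm_num, ?_⟩
  intro N R hN hR
  have ht := turan R hR
  have hl := low R
  simp only [Fintype.card_fin] at ht hl
  set T := ∑ w : Fin N, R.degree w with hT
  refine ⟨(Finset.univ : Finset (Fin N)).filter (fun v => N * R.degree v ≤ 2 * T), 2 * T / N, hl, ?_, ?_⟩
  · intro u hu
    have h1 := (Finset.mem_filter.1 hu).2
    rw [Nat.le_div_iff_mul_le hN]
    rw [mul_comm]; exact h1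
  · have h1 : (2 * T / N) * N ≤ 2 * T := Nat.div_mul_le_self _ _
    have h2 : ((2 * T / N) * N) ^ 5 ≤ (2 * T) ^ 5 := Nat.pow_le_pow_left h1 5
    have h3 : (2 * T / N) ^ 5 * N ^ 5 ≤ (32 * (4 ^ 5 * (36000 * 2 ^ 8)) * N ^ 3) * N ^ 5 := by
      calc (2 * T / N) ^ 5 * N ^ 5 = ((2 * T / N) * N) ^ 5 := by ring
        _ ≤ (2 * T) ^ 5 := h2
        _ = 32 * T ^ 5 := by ring
        _ ≤ 32 * (4 ^ 5 * (36000 * 2 ^ 8) * N ^ 8) := Nat.mul_le_mul_left _ ht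
        _ = (32 * (4 ^ 5 * (36000 * 2 ^ 8)) * N ^ 3) * N ^ 5 := by ring
    exact Nat.le_of_mul_le_mul_right h3 (by positivity)

/-- arithmetic: n + d D < U -/
theorem arith {K N n d D u C : ℕ} (hN : 0 < N) (hu : N ≤ 2 * u) (hD : D ^ 5 ≤ K * N ^ 3)
    (hn : 8 * n ≤ N) (hC : 8 ^ 5 * K * d ^ 5 ≤ N ^ 2) : n + d * D < u := by
  have h1 : (8 * (d * D)) ^ 5 ≤ N ^ 5 := by
    calc (8 * (d * D)) ^ 5 = 8 ^ 5 * d ^ 5 * D ^ 5 := by ring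
      _ ≤ 8 ^ 5 * d ^ 5 * (K * N ^ 3) := Nat.mul_le_mul_left _ hD
      _ = (8 ^ 5 * K * d ^ 5) * N ^ 3 := by ring
      _ ≤ N ^ 2 * N ^ 3 := Nat.mul_le_mul_right _ hC
      _ = N ^ 5 := by ring
  have h2 : 8 * (d * D) ≤ N := by
    by_contra h
    push_neg at h
    exact absurd h1 (not_le.2 (Nat.pow_lt_pow_left h (by norm_num)))
  omega

theorem main_gen : ∃ K : ℕ, 1 ≤ K ∧ ∀ (n d N : ℕ) (H : SimpleGraph (Fin n)) (R : SimpleGraph (Fin N)),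
    0 < N → ¬ RC R → 8 * n ≤ N → K * d ^ 5 ≤ N ^ 2 →
    ∀ W : Finset (Fin n),
    (∀ S : Finset (Fin n), W ⊆ S → S ≠ W → ∃ v ∈ S, v ∉ W ∧ (S.filter (fun u => H.Adj v u)).card ≤ d) →
    (∀ U : Finset (Fin N), N ≤ 2 * U.card → ∃ f : Fin n → Fin N, (∀ u ∈ W, f u ∈ U) ∧
      (∀ u ∈ W, ∀ v ∈ W, f u = f v → u = v) ∧ (∀ u ∈ W, ∀ v ∈ W, H.Adj u v → ¬ R.Adj (f u) (f v))) →
    ∃ g : H →g Rᶜ, Function.Injective g := by
  obtain ⟨K, hK, h⟩ := exists_U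
  refine ⟨8 ^ 5 * K, by omega, ?_⟩
  intro n d N H R hN hR hn hd W hW hf
  obtain ⟨U, D, hU1, hU2, hD⟩ := h N R hN hR
  obtain ⟨f, hf1, hf2, hf3⟩ := hf U hU1
  have ha := arith (C := 0) (K := K) hN hU1 hD hn hd
  refine greedy H R U D d hU2 ?_ W hW f hf1 hf2 hf3
  simpa using ha

end Pool.Agent.LibCD87
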