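import Pool.Agent.LibCD87.Fin1
set_option autoImplicit false
namespace Pool.Agent.LibCD87
open Classical

/-- the k-core -/
noncomputable def core {n : ℕ} (H : SimpleGraph (Fin n)) (k : ℕ) : Finset (Fin n) :=
  Finset.univ.filter (fun v => ∃ S : Finset (Fin n), v ∈ S ∧ ∀ u ∈ S, k ≤ (S.filter (fun w => H.Adj u w)).card)

theorem core_deg {n : ℕ} (H : SimpleGraph (Fin n)) (k : ℕ) (u : Fin n) (hu : u ∈ core H k) :
    k ≤ ((core H k).filter (fun w => H.Adj u w)).card := by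
  obtain ⟨S, hS, hk⟩ := (Finset.mem_filter.1 hu).2
  refine le_trans (hk u hS) (Finset.card_le_card ?_)
  intro w hw
  rw [Finset.mem_filter] at hw ⊢
  refine ⟨?_, hw.2⟩
  rw [core, Finset.mem_filter]
  exact ⟨Finset.mem_univ _, S, hw.1, hk⟩

theorem core_max {n : ℕ} (H : SimpleGraph (Fin n)) (k : ℕ) (S : Finset (Fin n)) (hS : core H k ⊆ S)
    (hne : S ≠ core H k) : ∃ v ∈ S, v ∉ core H k ∧ (S.filter (fun u => H.Adj v u)).card ≤ k - 1 := by
  by_contra hcon
  push Not at hcon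
  have hlt : core H k ⊂ S := lt_of_le_of_ne hS (Ne.symm hne)
  obtain ⟨x, hx, hxc⟩ := Finset.exists_of_ssubset hlt
  apply hxc
  rw [core, Finset.mem_filter]
  refine ⟨Finset.mem_univ _, S, hx, ?_⟩
  intro u hu
  by_cases huc : u ∈ core H k
  · exact le_trans (core_deg H k u huc) (Finset.card_le_card (Finset.filter_subset_filter _ hS))
  · have := hcon u hu huc
    omega

theorem n_le {n : ℕ} (H : SimpleGraph (Fin n)) (h : ∀ v, ∃ w, H.Adj v w) : n ≤ 2 * Nat.card H.edgeSet := by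
  have h1 := H.sum_degrees_eq_twice_card_edges
  rw [Nat.card_eq_fintype_card]
  have h2 : Fintype.card H.edgeSet = H.edgeFinset.card := by
    rw [SimpleGraph.edgeFinset_card]
  rw [h2, ← h1]
  calc n = ∑ v : Fin n, 1 := by simp
    _ ≤ ∑ v : Fin n, H.degree v := by
      apply Finset.sum_le_sum
      intro v _
      obtain ⟨w, hw⟩ := h v
      have : w ∈ H.neighborFinset v := by simpa using hw
      exact Finset.card_pos.2 ⟨w, this⟩

/-- blue copy -/
def BC {n N : ℕ} (H : SimpleGraph (Fin n)) (R : SimpleGraph (Fin N)) : Prop :=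
  ∃ g : H →g Rᶜ, Function.Injective g

theorem part1 : ∃ C : ℕ, ∀ (n d N : ℕ) (H : SimpleGraph (Fin n)) (R : SimpleGraph (Fin N)),
    (∀ S : Finset (Fin n), S.Nonempty → ∃ v ∈ S, Nat.card {u // u ∈ S ∧ H.Adj v u} ≤ d) →
    C * n ≤ N → C * d ^ 5 ≤ N ^ 2 → RC R ∨ BC H R := by
  obtain ⟨K, hK, h⟩ := main_gen
  refine ⟨K + 8, ?_⟩
  intro n d N H R hd hn hN2
  by_cases hR : RC R
  · exact Or.inl hR
  right
  rcases Nat.eq_zero_or_pos N with hN | hN
  · have hn0 : n = 0 := by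
      subst hN
      rcases Nat.eq_zero_or_pos n with h0 | h0
      · exact h0
      · exfalso
        have := Nat.mul_pos (show 0 < K + 8 by omega) h0
        omega
    subst hn0
    exact ⟨⟨fun x => x.elim0, fun {a} => a.elim0⟩, fun x => x.elim0⟩
  refine h n d N H R hN hR ?_ ?_ ∅ ?_ ?_
  · calc 8 * n ≤ (K + 8) * n := Nat.mul_le_mul_right _ (by omega)
      _ ≤ N := hn
  · calc K * d ^ 5 ≤ (K + 8) * d ^ 5 := Nat.mul_le_mul_right _ (by omega)
      _ ≤ N ^ 2 := hN2
  · intro S _ hS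
    obtain ⟨v, hv, hc⟩ := hd S (Finset.nonempty_iff_ne_empty.2 hS)
    refine ⟨v, hv, Finset.notMem_empty _, ?_⟩
    refine le_trans (le_of_eq ?_) hc
    rw [Nat.card_eq_fintype_card, Fintype.card_subtype]
    congr 1
    ext u
    simp
  · intro U hU
    have : 0 < U.card := by omega
    obtain ⟨u0, hu0⟩ := Finset.card_pos.1 this
    exact ⟨fun _ => u0, by simp, by simp, by simp⟩

theorem part2 (A : ℕ) :
    (∃ C : ℕ, ∀ (n : ℕ) (H : SimpleGraph (Fin n)), (∀ v, ∃ w, H.Adj v w) →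
      ∀ R : SimpleGraph (Fin (C * Nat.card H.edgeSet)), RC R ∨ BC H R) ↔
    (∃ C : ℕ, ∀ (n : ℕ) (H : SimpleGraph (Fin n)), (∀ v, ∃ w, H.Adj v w) →
      (∀ v, A * Nat.card H.edgeSet ^ 2 ≤ Nat.card {w // H.Adj v w} ^ 5) →
      ∀ R : SimpleGraph (Fin (C * Nat.card H.edgeSet)), RC R ∨ BC H R) := by
  constructor
  · rintro ⟨C, h⟩
    exact ⟨C, fun n H h1 _ R => h n H h1 R⟩
  rintro ⟨C', h'⟩
  rcases Nat.eq_zero_or_pos A with hA | hA
  · subst hA
    exact ⟨C', fun n H h1 R => h' n H h1 (fun v => by simp) R⟩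
  obtain ⟨K, hK, hmain⟩ := main_gen
  refine ⟨2 * C' + 16 + K * A, ?_⟩
  intro n H hiso
  have hnm0 : n ≤ 2 * Nat.card H.edgeSet := n_le H hiso
  obtain ⟨m, hm⟩ : ∃ m, m = Nat.card H.edgeSet := ⟨_, rfl⟩
  obtain ⟨C, hC⟩ : ∃ C, C = 2 * C' + 16 + K * A := ⟨_, rfl⟩
  rw [← hm, ← hC]
  rw [← hm] at hnm0
  have hnm := hnm0
  intro R
  by_cases hR : RC R
  · exact Or.inl hR
  right
  rcases Nat.eq_zero_or_pos m with hm0 | hm0
  · have hn0 : n = 0 := by omega
    subst hn0
    exact ⟨⟨fun x => x.elim0, fun {a} => a.elim0⟩, fun x => x.elim0⟩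
  have hNpos : 0 < C * m := Nat.mul_pos (by omega) hm0
  -- the threshold
  have hex : ∃ k : ℕ, A * m ^ 2 ≤ k ^ 5 := ⟨A * m ^ 2, Nat.le_self_pow (by norm_num) _⟩
  set k := Nat.find hex with hk
  have hk1 : A * m ^ 2 ≤ k ^ 5 := Nat.find_spec hex
  have hAm : 0 < A * m ^ 2 := Nat.mul_pos hA (pow_pos hm0 2)
  have hkpos : 0 < k := by
    rcases Nat.eq_zero_or_pos k with h0 | h0
    · rw [h0] at hk1; simp at hk1; omega
    · exact h0
  have hk2 : (k - 1) ^ 5 < A * m ^ 2 := by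
    have := Nat.find_min hex (m := k - 1) (by omega)
    omega
  have hNd : K * (k - 1) ^ 5 ≤ (C * m) ^ 2 := by
    have hCC : K * A ≤ C ^ 2 := by
      calc K * A ≤ C := by omega
        _ ≤ C ^ 2 := Nat.le_self_pow (by norm_num) _
    calc K * (k - 1) ^ 5 ≤ K * (A * m ^ 2) := Nat.mul_le_mul_left _ hk2.le
      _ = (K * A) * m ^ 2 := by ring
      _ ≤ C ^ 2 * m ^ 2 := Nat.mul_le_mul_right _ hCC
      _ = (C * m) ^ 2 := by ring
  have h8 : 8 * n ≤ C * m := by
    calc 8 * n ≤ 8 * (2 * m) := by omega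
      _ = 16 * m := by ring
      _ ≤ C * m := Nat.mul_le_mul_right _ (by omega)
  refine hmain n (k - 1) (C * m) H R hNpos hR h8 hNd (core H k) (fun S h1 h2 => core_max H k S h1 h2) ?_
  intro U hU
  -- the core as a graph
  obtain ⟨n', e⟩ : ∃ n', Nonempty (Fin n' ≃ {v // v ∈ core H k}) :=
    ⟨Fintype.card {v // v ∈ core H k}, ⟨(Fintype.equivFin _).symm⟩⟩
  obtain ⟨e⟩ := e
  let H' : SimpleGraph (Fin n') := H.comap (fun i => ((e i : {v // v ∈ core H k}) : Fin n))
  have hinj : Function.Injective (fun i => ((e i : {v // v ∈ core H k}) : Fin n)) :=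
    fun i j hij => e.injective (Subtype.ext hij)
  have hm' : Nat.card H'.edgeSet ≤ m := by
    let φ : H' →g H := ⟨fun i => ((e i : {v // v ∈ core H k}) : Fin n), fun {a b} hab => hab⟩
    have : Function.Injective φ.mapEdgeSet := SimpleGraph.Hom.mapEdgeSet.injective φ hinj
    rw [hm]
    exact Nat.card_le_card_of_injective _ this
  have hdeg' : ∀ v : Fin n', k ≤ Nat.card {w // H'.Adj v w} := by
    intro v
    refine le_trans (core_deg H k (e v) (e v).2) ?_
    rw [Nat.card_eq_fintype_card]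
    rw [← Fintype.card_coe]
    refine Fintype.card_le_of_injective (fun x => (⟨e.symm ⟨x.1, (Finset.mem_filter.1 x.2).1⟩, ?_⟩ : {w // H'.Adj v w})) ?_
    · show H.Adj _ _
      simpa using (Finset.mem_filter.1 x.2).2
    · intro x y hxy
      have h1 := congrArg Subtype.val hxy
      have h2 := e.symm.injective h1
      have h3 := congrArg Subtype.val h2
      exact Subtype.ext h3
  have hiso' : ∀ v, ∃ w, H'.Adj v w := by
    intro v
    have h1 : 0 < Nat.card {w // H'.Adj v w} := lt_of_lt_of_le hkpos (hdeg' v)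
    obtain ⟨w⟩ := (Nat.card_pos_iff.1 h1).1
    exact ⟨w.1, w.2⟩
  have hcond : ∀ v, A * Nat.card H'.edgeSet ^ 2 ≤ Nat.card {w // H'.Adj v w} ^ 5 := by
    intro v
    calc A * Nat.card H'.edgeSet ^ 2 ≤ A * m ^ 2 := Nat.mul_le_mul_left _ (Nat.pow_le_pow_left hm' 2)
      _ ≤ k ^ 5 := hk1
      _ ≤ _ := Nat.pow_le_pow_left (hdeg' v) 5
  have hUc : C' * Nat.card H'.edgeSet ≤ U.card := by
    have h1 : C' * Nat.card H'.edgeSet ≤ C' * m := Nat.mul_le_mul_left _ hm'
    have h2 : 2 * (C' * m) ≤ C * m := by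
      calc 2 * (C' * m) = (2 * C') * m := by ring
        _ ≤ C * m := Nat.mul_le_mul_right _ (by omega)
    omega
  obtain ⟨ι⟩ : Nonempty (Fin (C' * Nat.card H'.edgeSet) ↪ {u // u ∈ U}) := by
    apply Function.Embedding.nonempty_of_card_le
    simpa using hUc
  let R' : SimpleGraph (Fin (C' * Nat.card H'.edgeSet)) := R.comap (fun i => ((ι i : {u // u ∈ U}) : Fin (C * m)))
  rcases h' n' H' hiso' hcond R' with hr | ⟨g, hg⟩
  · exfalso
    apply hR
    obtain ⟨f, hf⟩ := hr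
    refine ⟨⟨fun x => ((ι (f x) : {u // u ∈ U}) : Fin (C * m)), fun {a b} hab => f.map_rel hab⟩, ?_⟩
    intro a b hab
    exact hf (ι.injective (Subtype.ext hab))
  · have hUne : 0 < U.card := by omega
    obtain ⟨u0, hu0⟩ := Finset.card_pos.1 hUne
    refine ⟨fun v => if hv : v ∈ core H k then ((ι (g (e.symm ⟨v, hv⟩)) : {u // u ∈ U}) : Fin (C * m)) else u0, ?_, ?_, ?_⟩
    · intro u hu
      simp only [hu, dif_pos]
      exact (ι (g (e.symm ⟨u, hu⟩))).2
    · intro u hu v hv huv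
      simp only [hu, hv, dif_pos] at huv
      have h1 := hg (ι.injective (Subtype.ext huv))
      have h2 := e.symm.injective h1
      exact congrArg Subtype.val h2
    · intro u hu v hv huv
      simp only [hu, hv, dif_pos]
      have hadj : H'.Adj (e.symm ⟨u, hu⟩) (e.symm ⟨v, hv⟩) := by
        show H.Adj _ _
        simpa using huv
      have h1 := g.map_rel hadj
      intro hcon
      rw [SimpleGraph.compl_adj] at h1
      exact h1.2 hcon

end Pool.Agent.LibCD87
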