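import Pool.Agent.LibCD87.Defs
set_option autoImplicit false
namespace Pool.Agent.LibCD87
variable {α β : Type*} [DecidableEq α] [DecidableEq β]

private theorem el (E : Finset (α × β)) (X : Finset α) (Y : Finset β) (x : α) :
    (E.filter (fun e => e.1 ∈ X ∧ e.2 ∈ Y)).card ≤
      (E.filter (fun e => e.1 ∈ X.erase x ∧ e.2 ∈ Y)).card + dl E Y x := by
  have h : E.filter (fun e => e.1 ∈ X ∧ e.2 ∈ Y) ⊆
      E.filter (fun e => e.1 ∈ X.erase x ∧ e.2 ∈ Y) ∪
        (Y.filter (fun y => (x, y) ∈ E)).image (fun y => (x, y)) := by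
    rintro ⟨u, v⟩ he
    simp only [Finset.mem_filter, Finset.mem_union, Finset.mem_image, Finset.mem_erase] at he ⊢
    by_cases hu : u = x
    · right
      exact ⟨v, ⟨he.2.2, hu ▸ he.1⟩, by rw [hu]⟩
    · left
      exact ⟨he.1, ⟨hu, he.2.1⟩, he.2.2⟩
  refine (Finset.card_le_card h).trans ((Finset.card_union_le _ _).trans ?_)
  exact Nat.add_le_add_left Finset.card_image_le _

private theorem er (E : Finset (α × β)) (X : Finset α) (Y : Finset β) (y : β) :
    (E.filter (fun e => e.1 ∈ X ∧ e.2 ∈ Y)).card ≤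
      (E.filter (fun e => e.1 ∈ X ∧ e.2 ∈ Y.erase y)).card + dr E X y := by
  have h : E.filter (fun e => e.1 ∈ X ∧ e.2 ∈ Y) ⊆
      E.filter (fun e => e.1 ∈ X ∧ e.2 ∈ Y.erase y) ∪
        (X.filter (fun x => (x, y) ∈ E)).image (fun x => (x, y)) := by
    rintro ⟨u, v⟩ he
    simp only [Finset.mem_filter, Finset.mem_union, Finset.mem_image, Finset.mem_erase] at he ⊢
    by_cases hv : v = y
    · right
      exact ⟨u, ⟨he.2.1, hv ▸ he.1⟩, by rw [hv]⟩
    · left
      exact ⟨he.1, he.2.1, hv, he.2.2⟩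
  refine (Finset.card_le_card h).trans ((Finset.card_union_le _ _).trans ?_)
  exact Nat.add_le_add_left Finset.card_image_le _

private theorem clean_aux (E : Finset (α × β)) (a b : ℕ) : ∀ (n : ℕ) (X : Finset α) (Y : Finset β),
    X.card + Y.card = n →
    a * X.card + b * Y.card < (E.filter (fun e => e.1 ∈ X ∧ e.2 ∈ Y)).card →
    ∃ X' : Finset α, X' ⊆ X ∧ ∃ Y' : Finset β, Y' ⊆ Y ∧
      (E.filter (fun e => e.1 ∈ X' ∧ e.2 ∈ Y')).Nonempty ∧
      (∀ x ∈ X', a < dl E Y' x) ∧ (∀ y ∈ Y', b < dr E X' y) := by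
  intro n
  induction n with
  | zero =>
    intro X Y hn hE
    have hX : X = ∅ := Finset.card_eq_zero.1 (by omega)
    subst hX
    simp at hE
  | succ n ih =>
    intro X Y hn hE
    by_cases hx : ∃ x ∈ X, dl E Y x ≤ a
    · obtain ⟨x, hxX, hxa⟩ := hx
      have hc : (X.erase x).card + 1 = X.card := Finset.card_erase_add_one hxX
      have h1 := el E X Y x
      have h2 : a * X.card = a * (X.erase x).card + a := by rw [← hc]; ring
      obtain ⟨X', hX', Y', hY', h3⟩ := ih (X.erase x) Y (by omega) (by omega)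
      exact ⟨X', hX'.trans (Finset.erase_subset _ _), Y', hY', h3⟩
    by_cases hy : ∃ y ∈ Y, dr E X y ≤ b
    · obtain ⟨y, hyY, hyb⟩ := hy
      have hc : (Y.erase y).card + 1 = Y.card := Finset.card_erase_add_one hyY
      have h1 := er E X Y y
      have h2 : b * Y.card = b * (Y.erase y).card + b := by rw [← hc]; ring
      obtain ⟨X', hX', Y', hY', h3⟩ := ih X (Y.erase y) (by omega) (by omega)
      exact ⟨X', hX', Y', hY'.trans (Finset.erase_subset _ _), h3⟩
    push Not at hx hy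
    exact ⟨X, Finset.Subset.refl _, Y, Finset.Subset.refl _, Finset.card_pos.1 (by omega), hx, hy⟩

/-- CLEANING. Plan: strong induction on `X.card + Y.card`. If some `x ∈ X` has `dl E Y x ≤ a`, erase it
(the number of edges drops by `dl E Y x ≤ a`, so the strict inequality is preserved); the same for `y`;
otherwise `X' = X`, `Y' = Y` (the filter is nonempty because its card is positive). -/
theorem clean (E : Finset (α × β)) (X : Finset α) (Y : Finset β) (a b : ℕ)
    (hE : a * X.card + b * Y.card < (E.filter (fun e => e.1 ∈ X ∧ e.2 ∈ Y)).card) :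
    ∃ X' : Finset α, X' ⊆ X ∧ ∃ Y' : Finset β, Y' ⊆ Y ∧
      (E.filter (fun e => e.1 ∈ X' ∧ e.2 ∈ Y')).Nonempty ∧
      (∀ x ∈ X', a < dl E Y' x) ∧ (∀ y ∈ Y', b < dr E X' y) := by
  exact clean_aux E a b _ X Y rfl hE

end Pool.Agent.LibCD87
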