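import Pool.Agent.LibCD87.L1
set_option autoImplicit false
namespace Pool.Agent.LibCD87
variable {α β : Type*} [DecidableEq α] [DecidableEq β]

/-- No path z1 w1 z2 w2 z3. Plan: otherwise `clean` with a = 1, b = 2 gives Z', W' with all left degrees ≥ 2 and all
right degrees ≥ 3; take an edge (z1, w1), z2 ≠ z1 adjacent to w1, w2 ≠ w1 adjacent to z2, z3 ≠ z1, z2 adjacent to w2. -/
theorem pathfree (F : Finset (α × β)) (Z : Finset α) (W : Finset β) (hF : ∀ e ∈ F, e.1 ∈ Z ∧ e.2 ∈ W)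
    (hp : ¬ ∃ z1 z2 z3 : α, ∃ w1 w2 : β, z1 ≠ z2 ∧ z1 ≠ z3 ∧ z2 ≠ z3 ∧ w1 ≠ w2 ∧
      (z1, w1) ∈ F ∧ (z2, w1) ∈ F ∧ (z2, w2) ∈ F ∧ (z3, w2) ∈ F) :
    F.card ≤ Z.card + 2 * W.card := by
  by_contra hcon
  rw [not_le] at hcon
  have hfilter : F.filter (fun e => e.1 ∈ Z ∧ e.2 ∈ W) = F := Finset.filter_true_of_mem hF
  have h1 : 1 * Z.card + 2 * W.card < (F.filter (fun e => e.1 ∈ Z ∧ e.2 ∈ W)).card := by
    rw [hfilter, one_mul]
    exact hcon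
  obtain ⟨X', _, Y', _, hne, hx, hy⟩ := clean F Z W 1 2 h1
  obtain ⟨⟨z1, w1⟩, he⟩ := hne
  rw [Finset.mem_filter] at he
  obtain ⟨he1, hz1, hw1⟩ := he
  have hd1 : 2 < (X'.filter (fun x => (x, w1) ∈ F)).card := hy w1 hw1
  obtain ⟨z2, hz2, hz21⟩ := Finset.exists_mem_ne (by omega : 1 < (X'.filter (fun x => (x, w1) ∈ F)).card) z1
  rw [Finset.mem_filter] at hz2
  have hd2 : 1 < (Y'.filter (fun y => (z2, y) ∈ F)).card := hx z2 hz2.1
  obtain ⟨w2, hw2, hw21⟩ := Finset.exists_mem_ne hd2 w1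
  rw [Finset.mem_filter] at hw2
  have hd3 : 2 < (X'.filter (fun x => (x, w2) ∈ F)).card := hy w2 hw2.1
  have hd4 : 1 < ((X'.filter (fun x => (x, w2) ∈ F)).erase z1).card := by
    have := Finset.pred_card_le_card_erase (s := X'.filter (fun x => (x, w2) ∈ F)) (a := z1)
    omega
  obtain ⟨z3, hz3, hz32⟩ := Finset.exists_mem_ne hd4 z2
  rw [Finset.mem_erase, Finset.mem_filter] at hz3
  exact hp ⟨z1, z2, z3, w1, w2, hz21.symm, hz3.1.symm, hz32.symm, hw21.symm, he1, hz2.2, hw2.2,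
    hz3.2.2⟩

end Pool.Agent.LibCD87
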