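import Pool.Agent.LibCD87.L2
set_option autoImplicit false
namespace Pool.Agent.LibCD87
variable {α β : Type*} [DecidableEq α] [DecidableEq β]

/-- double counting -/
private theorem card_prod {γ δ : Type*} [DecidableEq γ] [DecidableEq δ] (A : Finset γ) (C : Finset δ)
    (p : γ → δ → Prop) [∀ a c, Decidable (p a c)] :
    ((A ×ˢ C).filter fun q => p q.1 q.2).card = ∑ a ∈ A, (C.filter fun c => p a c).card := by
  rw [Finset.card_filter, Finset.sum_product]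
  refine Finset.sum_congr rfl fun a _ => ?_
  rw [Finset.card_filter]

private theorem card_prod' {γ δ : Type*} [DecidableEq γ] [DecidableEq δ] (A : Finset γ) (C : Finset δ)
    (p : γ → δ → Prop) [∀ a c, Decidable (p a c)] :
    ((A ×ˢ C).filter fun q => p q.1 q.2).card = ∑ c ∈ C, (A.filter fun a => p a c).card := by
  rw [Finset.card_filter, Finset.sum_product_right]
  refine Finset.sum_congr rfl fun a _ => ?_
  rw [Finset.card_filter]

private theorem arith {s t a b c f1 f2 : ℕ} (hs : 8 ≤ s) (ht : 4 ≤ t) (ha : s ≤ a) (h1 : (t - 1) * a ≤ f1)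
    (h2 : f1 ≤ a + 2 * b) (h3 : s * b ≤ f2 + f1) (h4 : f2 ≤ b + 2 * c) : s ^ 2 * t ≤ 16 * c := by
  obtain ⟨t', rfl⟩ : ∃ t', t = t' + 4 := ⟨t - 4, by omega⟩
  obtain ⟨s', rfl⟩ : ∃ s', s = s' + 8 := ⟨s - 8, by omega⟩
  have e1 : t' + 4 - 1 = t' + 3 := by omega
  rw [e1] at h1
  have h5 : (t' + 2) * a ≤ 2 * b := by nlinarith
  have h6 : a ≤ b := by nlinarith
  have h7 : (s' + 4) * b ≤ 2 * c := by nlinarith
  have h8 : (t' + 2) * (s' + 8) ≤ 2 * b := le_trans (Nat.mul_le_mul_left _ ha) h5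
  have h9 : (s' + 4) * ((t' + 2) * (s' + 8)) ≤ 4 * c := by
    calc (s' + 4) * ((t' + 2) * (s' + 8)) ≤ (s' + 4) * (2 * b) := Nat.mul_le_mul_left _ h8
      _ = 2 * ((s' + 4) * b) := by ring
      _ ≤ 2 * (2 * c) := Nat.mul_le_mul_left _ h7
      _ = 4 * c := by ring
  have h10 : (s' + 8) * ((t' + 4) * (s' + 8)) ≤ (2 * (s' + 4)) * ((2 * (t' + 2)) * (s' + 8)) :=
    Nat.mul_le_mul (by omega) (Nat.mul_le_mul_right _ (by omega))
  calc (s' + 8) ^ 2 * (t' + 4) = (s' + 8) * ((t' + 4) * (s' + 8)) := by ring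
    _ ≤ (2 * (s' + 4)) * ((2 * (t' + 2)) * (s' + 8)) := h10
    _ = 4 * ((s' + 4) * ((t' + 2) * (s' + 8))) := by ring
    _ ≤ 4 * (4 * c) := Nat.mul_le_mul_left _ h9
    _ = 16 * c := by ring

/-- GROWTH in hexagon free graphs. Plan: fix x0 ∈ X, N1 = {y ∈ Y | (x0,y) ∈ E} (card ≥ s),
N2 = {x ∈ X | x ≠ x0 ∧ ∃ y ∈ N1, (x,y) ∈ E}, F1 = {(y,x) | y ∈ N1, x ∈ N2, (x,y) ∈ E} (a Finset (β × α)).
(1) F1.card ≥ (t-1) N1.card (each y ∈ N1 has ≥ t neighbours in X, at most one is x0).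
(2) F1 has no path y1 x1 y2 x2 y3 (else hexagon with x0), so `pathfree` gives F1.card ≤ N1.card + 2 N2.card.
So (t-2) N1.card ≤ 2 N2.card; with t ≥ 4: N1.card ≤ N2.card.
(3) choose a parent par x ∈ N1 with (x, par x) ∈ E for x ∈ N2. N3 = {w ∈ Y | w ∉ N1 ∧ ∃ x ∈ N2, (x,w) ∈ E},
F2 = {(x,w) | x ∈ N2, w ∈ N3, (x,w) ∈ E}. F2.card + F1.card ≥ s N2.card (neighbours in Y of x ∈ N2 are in N1 or N3).
(4) if (x,w), (x',w) ∈ F2, x ≠ x', then par x = par x' (else hexagon x0, par x, x, w, x', par x').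
Hence a path x1 w1 x2 w2 x3 in F2 has par x1 = par x2 = par x3 = y and y x1 w1 x2 w2 x3 is a hexagon
(w1, w2 ≠ y as w ∉ N1). So `pathfree`: F2.card ≤ N2.card + 2 N3.card.
(5) 2 N3.card ≥ s N2.card - N1.card - 2 N2.card - N2.card ≥ (s-4) N2.card, 2 N2.card ≥ (t-2) s;
so 4 N3.card ≥ (s-4)(t-2)s ≥ s^2 t/4 since s ≥ 8, t ≥ 4. N3 ⊆ Y. -/
theorem growth (E : Finset (α × β)) (hex : HexFree E) (X : Finset α) (Y : Finset β) (s t : ℕ)
    (hs : 8 ≤ s) (ht : 4 ≤ t) (hne : X.Nonempty)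
    (hX : ∀ x ∈ X, s ≤ dl E Y x) (hY : ∀ y ∈ Y, t ≤ dr E X y) :
    s ^ 2 * t ≤ 16 * Y.card := by
  classical
  obtain ⟨x0, hx0⟩ := hne
  set N1 := Y.filter fun y => (x0, y) ∈ E with hN1
  have hN1s : s ≤ N1.card := hX x0 hx0
  have m1 : ∀ y, y ∈ N1 ↔ y ∈ Y ∧ (x0, y) ∈ E := fun y => by rw [hN1, Finset.mem_filter]
  set N2 := X.filter fun x => x ≠ x0 ∧ ∃ y ∈ N1, (x, y) ∈ E with hN2
  have m2 : ∀ x, x ∈ N2 ↔ x ∈ X ∧ x ≠ x0 ∧ ∃ y ∈ N1, (x, y) ∈ E := fun x => by rw [hN2, Finset.mem_filter]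
  set N3 := Y.filter fun w => w ∉ N1 ∧ ∃ x ∈ N2, (x, w) ∈ E with hN3
  have m3 : ∀ w, w ∈ N3 ↔ w ∈ Y ∧ w ∉ N1 ∧ ∃ x ∈ N2, (x, w) ∈ E := fun w => by rw [hN3, Finset.mem_filter]
  set F1 : Finset (β × α) := (N1 ×ˢ N2).filter fun q => (q.2, q.1) ∈ E with hF1
  set F2 : Finset (α × β) := (N2 ×ˢ N3).filter fun q => (q.1, q.2) ∈ E with hF2
  have mF1 : ∀ y x, (y, x) ∈ F1 ↔ (y ∈ N1 ∧ x ∈ N2) ∧ (x, y) ∈ E := fun y x => by
    rw [hF1, Finset.mem_filter, Finset.mem_product]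
  have mF2 : ∀ x w, (x, w) ∈ F2 ↔ (x ∈ N2 ∧ w ∈ N3) ∧ (x, w) ∈ E := fun x w => by
    rw [hF2, Finset.mem_filter, Finset.mem_product]
  -- (1)
  have h1 : (t - 1) * N1.card ≤ F1.card := by
    have e : F1.card = ∑ y ∈ N1, (N2.filter fun x => (x, y) ∈ E).card := card_prod N1 N2 fun y x => (x, y) ∈ E
    rw [e, mul_comm, ← smul_eq_mul]
    refine Finset.card_nsmul_le_sum _ _ _ fun y hy => ?_
    have hyY := ((m1 y).1 hy).1
    have ht' : t ≤ (X.filter fun x => (x, y) ∈ E).card := hY y hyY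
    have hsub : (X.filter fun x => (x, y) ∈ E).erase x0 ⊆ N2.filter fun x => (x, y) ∈ E := by
      intro x hx
      rw [Finset.mem_erase, Finset.mem_filter] at hx
      rw [Finset.mem_filter]
      exact ⟨(m2 x).2 ⟨hx.2.1, hx.1, y, hy, hx.2.2⟩, hx.2.2⟩
    have h2 := Finset.card_le_card hsub
    have h3 := Finset.pred_card_le_card_erase (s := X.filter fun x => (x, y) ∈ E) (a := x0)
    omega
  -- (2)
  have h2 : F1.card ≤ N1.card + 2 * N2.card := by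
    refine pathfree F1 N1 N2 (fun e he => ((mF1 e.1 e.2).1 he).1) ?_
    rintro ⟨z1, z2, z3, w1, w2, h12, h13, h23, hw, a1, a2, a3, a4⟩
    have b1 := (mF1 _ _).1 a1
    have b2 := (mF1 _ _).1 a2
    have b3 := (mF1 _ _).1 a3
    have b4 := (mF1 _ _).1 a4
    exact hex ⟨x0, w1, w2, z1, z2, z3, (((m2 w1).1 b1.1.2).2.1).symm, (((m2 w2).1 b3.1.2).2.1).symm, hw, h12, h13,
      h23, ((m1 z1).1 b1.1.1).2, b1.2, b2.2, b3.2, b4.2, ((m1 z3).1 b4.1.1).2⟩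
  -- (3)
  have h3 : s * N2.card ≤ F2.card + F1.card := by
    have e1 : F1.card = ∑ x ∈ N2, (N1.filter fun y => (x, y) ∈ E).card := card_prod' N1 N2 fun y x => (x, y) ∈ E
    have e2 : F2.card = ∑ x ∈ N2, (N3.filter fun w => (x, w) ∈ E).card := card_prod N2 N3 fun x w => (x, w) ∈ E
    rw [e1, e2, ← Finset.sum_add_distrib, mul_comm, ← smul_eq_mul]
    refine Finset.card_nsmul_le_sum _ _ _ fun x hx => ?_
    have hs' : s ≤ (Y.filter fun y => (x, y) ∈ E).card := hX x ((m2 x).1 hx).1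
    have hsub : (Y.filter fun y => (x, y) ∈ E) ⊆
        (N3.filter fun w => (x, w) ∈ E) ∪ (N1.filter fun y => (x, y) ∈ E) := by
      intro y hy
      rw [Finset.mem_filter] at hy
      by_cases h : y ∈ N1
      · exact Finset.mem_union_right _ (Finset.mem_filter.2 ⟨h, hy.2⟩)
      · exact Finset.mem_union_left _ (Finset.mem_filter.2 ⟨(m3 y).2 ⟨hy.1, h, x, hx, hy.2⟩, hy.2⟩)
    exact hs'.trans ((Finset.card_le_card hsub).trans (Finset.card_union_le _ _))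
  -- parents
  obtain ⟨y0, hy0⟩ : N1.Nonempty := by
    rw [← Finset.card_pos]
    omega
  have hpar : ∀ x, ∃ y, x ∈ N2 → y ∈ N1 ∧ (x, y) ∈ E := by
    intro x
    by_cases hx : x ∈ N2
    · obtain ⟨y, hy, hxy⟩ := ((m2 x).1 hx).2.2
      exact ⟨y, fun _ => ⟨hy, hxy⟩⟩
    · exact ⟨y0, fun h => absurd h hx⟩
  choose par hpar using hpar
  have hsame : ∀ x x' w, x ≠ x' → (x, w) ∈ F2 → (x', w) ∈ F2 → par x = par x' := by
    intro x x' w hne hx hx'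
    by_contra hcon
    have b1 := (mF2 _ _).1 hx
    have b2 := (mF2 _ _).1 hx'
    have p1 := hpar x b1.1.1
    have p2 := hpar x' b2.1.1
    have hw := ((m3 w).1 b1.1.2).2.1
    exact hex ⟨x0, x, x', par x, w, par x', (((m2 x).1 b1.1.1).2.1).symm, (((m2 x').1 b2.1.1).2.1).symm, hne,
      fun h => hw (h ▸ p1.1), hcon, fun h => hw (h.symm ▸ p2.1), ((m1 _).1 p1.1).2, p1.2, b1.2, b2.2, p2.2,
      ((m1 _).1 p2.1).2⟩
  -- (4)
  have h4 : F2.card ≤ N2.card + 2 * N3.card := by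
    refine pathfree F2 N2 N3 (fun e he => ((mF2 e.1 e.2).1 he).1) ?_
    rintro ⟨z1, z2, z3, w1, w2, h12, h13, h23, hw, a1, a2, a3, a4⟩
    have b1 := (mF2 _ _).1 a1
    have b2 := (mF2 _ _).1 a2
    have b3 := (mF2 _ _).1 a3
    have b4 := (mF2 _ _).1 a4
    have q1 := hsame z1 z2 w1 h12 a1 a2
    have q2 := hsame z2 z3 w2 h23 a3 a4
    have p1 := hpar z1 b1.1.1
    have p3 := hpar z3 b4.1.1
    rw [← q2, ← q1] at p3
    have k1 := ((m3 w1).1 b1.1.2).2.1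
    have k2 := ((m3 w2).1 b3.1.2).2.1
    exact hex ⟨z1, z2, z3, w1, w2, par z1, h12, h13, h23, hw, fun h => k1 (h.symm ▸ p1.1), fun h => k2 (h.symm ▸ p1.1),
      b1.2, b2.2, b3.2, b4.2, p3.2, p1.2⟩
  have h5 : N3.card ≤ Y.card := Finset.card_le_card (Finset.filter_subset _ _)
  exact (arith hs ht hN1s h1 h2 h3 h4).trans (Nat.mul_le_mul_left _ h5)

end Pool.Agent.LibCD87
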