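import Pool.Agent.LibCD87.L3
set_option autoImplicit false
namespace Pool.Agent.LibCD87
variable {α β : Type*} [DecidableEq α] [DecidableEq β]

/-- Unbalanced bound for hexagon free bipartite graphs. Plan: p = X.card, q = Y.card. Assume 32 (p+q) ≤ E.card (then
p, q > 0 unless E is empty, trivial). a = E.card/(4p), b = E.card/(4q) (natural division): a p + b q ≤ E.card/2 < E.card, so
`clean` gives X', Y' with degrees ≥ a+1 ≥ 8 and ≥ b+1 ≥ 8; `growth` on X', Y' with s = a+1, t = b+1: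
(a+1)^2 (b+1) ≤ 16 Y'.card ≤ 16 q, and 4p(a+1) ≥ E.card, 4q(b+1) ≥ E.card. Multiply. -/
theorem hex_bound (E : Finset (α × β)) (hex : HexFree E) (X : Finset α) (Y : Finset β)
    (hE : ∀ e ∈ E, e.1 ∈ X ∧ e.2 ∈ Y) :
    E.card ^ 3 ≤ 1024 * X.card ^ 2 * Y.card ^ 2 ∨ E.card < 32 * (X.card + Y.card) := by
  classical
  by_cases hlt : E.card < 32 * (X.card + Y.card)
  · exact Or.inr hlt
  left
  rw [not_lt] at hlt
  rcases Nat.eq_zero_or_pos E.card with h0 | hpos
  · rw [h0]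
    simp
  obtain ⟨e0, he0⟩ := Finset.card_pos.mp hpos
  have hp : 0 < X.card := Finset.card_pos.mpr ⟨e0.1, (hE e0 he0).1⟩
  have hq : 0 < Y.card := Finset.card_pos.mpr ⟨e0.2, (hE e0 he0).2⟩
  have hfil : E.filter (fun e => e.1 ∈ X ∧ e.2 ∈ Y) = E := Finset.filter_true_of_mem hE
  set n := E.card with hn
  set p := X.card with hpd
  set q := Y.card with hqd
  have hap : n / (4 * p) * (4 * p) ≤ n := Nat.div_mul_le_self n (4 * p)
  have hbq : n / (4 * q) * (4 * q) ≤ n := Nat.div_mul_le_self n (4 * q)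
  have ha1 : n < 4 * p * (n / (4 * p) + 1) := Nat.lt_mul_div_succ n (by omega)
  have hb1 : n < 4 * q * (n / (4 * q) + 1) := Nat.lt_mul_div_succ n (by omega)
  have ha8 : 8 ≤ n / (4 * p) := by
    rw [Nat.le_div_iff_mul_le (by omega)]
    omega
  have hb8 : 8 ≤ n / (4 * q) := by
    rw [Nat.le_div_iff_mul_le (by omega)]
    omega
  set a := n / (4 * p) with had
  set b := n / (4 * q) with hbd
  have e1 : a * (4 * p) = 4 * (a * p) := by ring
  have e2 : b * (4 * q) = 4 * (b * q) := by ring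
  rw [e1] at hap
  rw [e2] at hbq
  obtain ⟨X', hX', Y', hY', hne, hdl, hdr⟩ := clean E X Y a b (by
    rw [hfil, ← hn, ← hpd, ← hqd]
    omega)
  obtain ⟨e, he⟩ := hne
  have hg := growth E hex X' Y' (a + 1) (b + 1) (by omega) (by omega)
    ⟨e.1, (Finset.mem_filter.mp he).2.1⟩ (fun x hx => hdl x hx) (fun y hy => hdr y hy)
  have hYq : Y'.card ≤ q := Finset.card_le_card hY'
  have h1 : (a + 1) ^ 2 * (b + 1) ≤ 16 * q := le_trans hg (Nat.mul_le_mul_left 16 hYq)
  calc n ^ 3 = n ^ 2 * n := by ring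
    _ ≤ (4 * p * (a + 1)) ^ 2 * (4 * q * (b + 1)) :=
        Nat.mul_le_mul (Nat.pow_le_pow_left ha1.le 2) hb1.le
    _ = 64 * p ^ 2 * q * ((a + 1) ^ 2 * (b + 1)) := by ring
    _ ≤ 64 * p ^ 2 * q * (16 * q) := Nat.mul_le_mul_left _ h1
    _ = 1024 * p ^ 2 * q ^ 2 := by ring

end Pool.Agent.LibCD87
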