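import Pool.Agent.LibCD87.L4
set_option autoImplicit false
namespace Pool.Agent.LibCD87
variable {α β : Type*} [DecidableEq α] [DecidableEq β] [Fintype α] [Fintype β]

/-- Plan: `B E x y` is hexagon free (a hexagon in it together with x, y is a cube), apply `hex_bound` with
X = {b | (b,y) ∈ E}, Y = {a | (x,a) ∈ E}. -/
theorem B_bound (E : Finset (α × β)) (h : CubeFree E) (x : α) (y : β) :
    (B E x y).card ^ 3 ≤ 1024 * (dr E Finset.univ y) ^ 2 * (dl E Finset.univ x) ^ 2 ∨
    (B E x y).card < 32 * (dr E Finset.univ y + dl E Finset.univ x) := by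
  have hex : HexFree (B E x y) := by
    rintro ⟨x1, x2, x3, y1, y2, y3, h12, h13, h23, k12, k13, k23, e11, e21, e22, e32, e33, e13⟩
    simp only [B, Finset.mem_filter] at e11 e21 e22 e32 e33 e13
    exact h ⟨x, x2, x3, x1, y, y1, y2, y3, fun q => e21.2.2.2.1 q.symm, fun q => e32.2.2.2.1 q.symm,
      fun q => e11.2.2.2.1 q.symm, h23, fun q => h12 q.symm, fun q => h13 q.symm,
      fun q => e11.2.2.2.2 q.symm, fun q => e22.2.2.2.2 q.symm, fun q => e33.2.2.2.2 q.symm,
      k12, k13, k23, e11.2.1, e22.2.1, e33.2.1, e21.1, e22.1, e32.1, e33.1, e13.1, e11.1,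
      e21.2.2.1, e32.2.2.1, e11.2.2.1⟩
  have hb := hex_bound (B E x y) hex (Finset.univ.filter (fun b => (b, y) ∈ E))
    (Finset.univ.filter (fun a => (x, a) ∈ E)) (by
      intro e he
      simp only [B, Finset.mem_filter] at he
      simp only [Finset.mem_filter, Finset.mem_univ, true_and]
      exact ⟨he.2.2.1, he.2.1⟩)
  exact hb

end Pool.Agent.LibCD87
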