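import Pool.Agent.LibCD87.Defs
set_option autoImplicit false
namespace Pool.Agent.LibCD87
variable {α β : Type*} [DecidableEq α] [DecidableEq β] [Fintype α] [Fintype β]

private theorem L5b_swap (E : Finset (α × β)) :
    ∑ e ∈ E, dl E Finset.univ e.1 * dr E Finset.univ e.2 =
      ∑ x : α, ∑ y : β, (E.filter (fun e => (x, e.2) ∈ E ∧ (e.1, y) ∈ E)).card := by
  have h : ∀ e ∈ E, dl E Finset.univ e.1 * dr E Finset.univ e.2 =
      ∑ x : α, ∑ y : β, if (x, e.2) ∈ E ∧ (e.1, y) ∈ E then 1 else 0 := by
    intro e _
    unfold dl dr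
    rw [Finset.card_filter, Finset.card_filter, mul_comm, Finset.sum_mul_sum]
    refine Finset.sum_congr rfl (fun x _ => Finset.sum_congr rfl (fun y _ => ?_))
    by_cases h1 : (x, e.2) ∈ E
    · by_cases h2 : (e.1, y) ∈ E
      · simp [h1, h2]
      · simp [h1, h2]
    · simp [h1]
  rw [Finset.sum_congr rfl h, Finset.sum_comm]
  refine Finset.sum_congr rfl (fun x _ => ?_)
  rw [Finset.sum_comm]
  refine Finset.sum_congr rfl (fun y _ => ?_)
  rw [Finset.card_filter]

private theorem L5b_point (E : Finset (α × β)) (x : α) (y : β) :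
    (E.filter (fun e => (x, e.2) ∈ E ∧ (e.1, y) ∈ E)).card ≤
      (B E x y).card + (if (x, y) ∈ E then (Fintype.card α + Fintype.card β) else 0) := by
  by_cases hxy : (x, y) ∈ E
  · rw [if_pos hxy]
    have hsub : E.filter (fun e => (x, e.2) ∈ E ∧ (e.1, y) ∈ E) ⊆
        B E x y ∪ ((Finset.univ : Finset α).image (fun b => (b, y)) ∪
          (Finset.univ : Finset β).image (fun a => (x, a))) := by
      rintro ⟨b, a⟩ he
      rw [Finset.mem_filter] at he
      rw [Finset.mem_union, Finset.mem_union]
      by_cases hb : b = x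
      · right; right
        rw [Finset.mem_image]
        exact ⟨a, Finset.mem_univ _, by rw [hb]⟩
      · by_cases ha : a = y
        · right; left
          rw [Finset.mem_image]
          exact ⟨b, Finset.mem_univ _, by rw [ha]⟩
        · left
          unfold B
          rw [Finset.mem_filter]
          exact ⟨he.1, he.2.1, he.2.2, hb, ha⟩
    refine (Finset.card_le_card hsub).trans ((Finset.card_union_le _ _).trans ?_)
    refine Nat.add_le_add_left ((Finset.card_union_le _ _).trans ?_) _
    exact Nat.add_le_add (Finset.card_image_le) (Finset.card_image_le)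
  · rw [if_neg hxy, Nat.add_zero]
    refine Finset.card_le_card ?_
    rintro ⟨b, a⟩ he
    rw [Finset.mem_filter] at he
    unfold B
    rw [Finset.mem_filter]
    obtain ⟨h0, h1, h2⟩ := he
    refine ⟨h0, h1, h2, ?_, ?_⟩
    · intro hb
      have hb' : b = x := hb
      subst hb'
      exact hxy h2
    · intro ha
      have ha' : a = y := ha
      subst ha'
      exact hxy h1

/-- Plan: the left side counts the quadruples x ~ a ~ b ~ y (sum over (b,a) ∈ E of #{x | (x,a) ∈ E} * #{y | (b,y) ∈ E}).
For fixed (x,y): those with b ≠ x, a ≠ y are `B E x y`; those with b = x need (x,y) ∈ E and are at most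
dl x ≤ card β many; those with a = y need (x,y) ∈ E and are at most dr y ≤ card α many. -/
theorem walks_le (E : Finset (α × β)) :
    ∑ e ∈ E, dl E Finset.univ e.1 * dr E Finset.univ e.2 ≤
      (∑ x : α, ∑ y : β, (B E x y).card) + E.card * (Fintype.card α + Fintype.card β) := by
  rw [L5b_swap]
  have h3 : ∑ x : α, ∑ y : β, (if (x, y) ∈ E then (Fintype.card α + Fintype.card β) else 0) =
      E.card * (Fintype.card α + Fintype.card β) := by
    rw [← Fintype.sum_prod_type' (fun x y => if (x, y) ∈ E then (Fintype.card α + Fintype.card β) else 0)]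
    rw [Finset.sum_ite_mem, Finset.univ_inter, Finset.sum_const, smul_eq_mul]
  rw [← h3, ← Finset.sum_add_distrib]
  refine Finset.sum_le_sum (fun x _ => ?_)
  rw [← Finset.sum_add_distrib]
  exact Finset.sum_le_sum (fun y _ => L5b_point E x y)

end Pool.Agent.LibCD87
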