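import Pool.Agent.LibCD87.Defs
set_option autoImplicit false
namespace Pool.Agent.LibCD87
variable {α β : Type*} [DecidableEq α] [DecidableEq β] [Fintype α] [Fintype β]

private lemma card_fib_r (E : Finset (α × β)) (y : β) :
    (E.filter (fun e => e.2 = y)).card = dr E Finset.univ y := by
  unfold dr
  refine Finset.card_bij (fun e _ => e.1) ?_ ?_ ?_
  · intro e he
    rw [Finset.mem_filter] at he
    simp only [Finset.mem_filter, Finset.mem_univ, true_and]
    rw [← he.2]
    exact he.1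
  · intro e he f hf h
    rw [Finset.mem_filter] at he hf
    exact Prod.ext h (he.2.trans hf.2.symm)
  · intro x hx
    simp only [Finset.mem_filter, Finset.mem_univ, true_and] at hx
    exact ⟨(x, y), by simp [hx], rfl⟩

private lemma card_fib_l (E : Finset (α × β)) (x : α) :
    (E.filter (fun e => e.1 = x)).card = dl E Finset.univ x := by
  unfold dl
  refine Finset.card_bij (fun e _ => e.2) ?_ ?_ ?_
  · intro e he
    rw [Finset.mem_filter] at he
    simp only [Finset.mem_filter, Finset.mem_univ, true_and]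
    rw [← he.2]
    exact he.1
  · intro e he f hf h
    rw [Finset.mem_filter] at he hf
    exact Prod.ext (he.2.trans hf.2.symm) h
  · intro y hy
    simp only [Finset.mem_filter, Finset.mem_univ, true_and] at hy
    exact ⟨(x, y), by simp [hy], rfl⟩

private lemma sum_inv_r (E : Finset (α × β)) :
    ∑ e ∈ E, (1 : ℝ) / (dr E Finset.univ e.2 : ℝ) ≤ (Fintype.card β : ℝ) := by
  rw [← Finset.sum_fiberwise E (fun e => e.2)]
  have h : ∀ y ∈ (Finset.univ : Finset β),
      ∑ e ∈ E.filter (fun e => e.2 = y), (1 : ℝ) / (dr E Finset.univ e.2 : ℝ) ≤ 1 := by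
    intro y _
    have h1 : ∑ e ∈ E.filter (fun e => e.2 = y), (1 : ℝ) / (dr E Finset.univ e.2 : ℝ)
        = ∑ e ∈ E.filter (fun e => e.2 = y), (1 : ℝ) / (dr E Finset.univ y : ℝ) := by
      refine Finset.sum_congr rfl ?_
      intro e he
      rw [(Finset.mem_filter.mp he).2]
    rw [h1, Finset.sum_const, card_fib_r, nsmul_eq_mul, mul_one_div]
    exact div_self_le_one _
  refine (Finset.sum_le_sum h).trans ?_
  simp

private lemma sum_inv_l (E : Finset (α × β)) :
    ∑ e ∈ E, (1 : ℝ) / (dl E Finset.univ e.1 : ℝ) ≤ (Fintype.card α : ℝ) := by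
  rw [← Finset.sum_fiberwise E (fun e => e.1)]
  have h : ∀ x ∈ (Finset.univ : Finset α),
      ∑ e ∈ E.filter (fun e => e.1 = x), (1 : ℝ) / (dl E Finset.univ e.1 : ℝ) ≤ 1 := by
    intro x _
    have h1 : ∑ e ∈ E.filter (fun e => e.1 = x), (1 : ℝ) / (dl E Finset.univ e.1 : ℝ)
        = ∑ e ∈ E.filter (fun e => e.1 = x), (1 : ℝ) / (dl E Finset.univ x : ℝ) := by
      refine Finset.sum_congr rfl ?_
      intro e he
      rw [(Finset.mem_filter.mp he).2]
    rw [h1, Finset.sum_const, card_fib_l, nsmul_eq_mul, mul_one_div]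
    exact div_self_le_one _
  refine (Finset.sum_le_sum h).trans ?_
  simp

private lemma amgm3 (u v : ℝ) (hu : 0 < u) (hv : 0 < v) : 3 ≤ u * v + 1 / u + 1 / v := by
  have huv : 0 < u * v := mul_pos hu hv
  have key : 3 * (u * v) ≤ (u * v) ^ 2 + v + u := by
    nlinarith [sq_nonneg (u * v - 1), sq_nonneg (u - v), mul_pos hu hv,
      sq_nonneg (u + v - 2), sq_nonneg (u - 1), sq_nonneg (v - 1), mul_pos (mul_pos hu hv) hu,
      mul_pos (mul_pos hu hv) hv]
  have e : u * v + 1 / u + 1 / v = ((u * v) ^ 2 + v + u) / (u * v) := by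
    field_simp
  rw [e, le_div_iff₀ huv]
  exact key

/-- Plan: real numbers; E = 0 trivial. For e = (b,a) put u = dr a * card β / E, v = dl b * card α / E (both > 0 for e ∈ E).
AM-GM: 3 ≤ u v + 1/u + 1/v. Sum over e ∈ E: Σ 1/dr a ≤ card β (each a with dr a > 0 contributes exactly 1),
Σ 1/dl b ≤ card α. So 3 E ≤ W card α card β / E^2 + E + E. -/
theorem walks_ge (E : Finset (α × β)) :
    E.card ^ 3 ≤ (∑ e ∈ E, dl E Finset.univ e.1 * dr E Finset.univ e.2) *
      (Fintype.card α * Fintype.card β) := by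
  classical
  rcases Nat.eq_zero_or_pos E.card with h0 | hpos
  · rw [h0]; simp
  obtain ⟨e0, he0⟩ := Finset.card_pos.mp hpos
  have hα : (0 : ℝ) < (Fintype.card α : ℝ) := by
    exact_mod_cast Fintype.card_pos_iff.mpr ⟨e0.1⟩
  have hβ : (0 : ℝ) < (Fintype.card β : ℝ) := by
    exact_mod_cast Fintype.card_pos_iff.mpr ⟨e0.2⟩
  have hN : (0 : ℝ) < (E.card : ℝ) := by exact_mod_cast hpos
  set N : ℝ := (E.card : ℝ) with hNdef
  set A : ℝ := (Fintype.card α : ℝ) with hA
  set Bt : ℝ := (Fintype.card β : ℝ) with hBt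
  have hterm : ∀ e ∈ E, (3 : ℝ) ≤
      ((dl E Finset.univ e.1 : ℝ) * (dr E Finset.univ e.2 : ℝ)) * (A * Bt / N ^ 2)
        + (1 / (dr E Finset.univ e.2 : ℝ)) * (N / Bt)
        + (1 / (dl E Finset.univ e.1 : ℝ)) * (N / A) := by
    intro e he
    have h1 : (0 : ℝ) < (dl E Finset.univ e.1 : ℝ) := by
      have : 0 < dl E Finset.univ e.1 := by
        rw [← card_fib_l]
        exact Finset.card_pos.mpr ⟨e, Finset.mem_filter.mpr ⟨he, rfl⟩⟩
      exact_mod_cast this
    have h2 : (0 : ℝ) < (dr E Finset.univ e.2 : ℝ) := by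
      have : 0 < dr E Finset.univ e.2 := by
        rw [← card_fib_r]
        exact Finset.card_pos.mpr ⟨e, Finset.mem_filter.mpr ⟨he, rfl⟩⟩
      exact_mod_cast this
    have h3 := amgm3 ((dr E Finset.univ e.2 : ℝ) * Bt / N) ((dl E Finset.univ e.1 : ℝ) * A / N)
      (by positivity) (by positivity)
    have e1 : (dr E Finset.univ e.2 : ℝ) * Bt / N * ((dl E Finset.univ e.1 : ℝ) * A / N)
        = ((dl E Finset.univ e.1 : ℝ) * (dr E Finset.univ e.2 : ℝ)) * (A * Bt / N ^ 2) := by
      field_simp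
    have e2 : 1 / ((dr E Finset.univ e.2 : ℝ) * Bt / N)
        = (1 / (dr E Finset.univ e.2 : ℝ)) * (N / Bt) := by
      field_simp
    have e3 : 1 / ((dl E Finset.univ e.1 : ℝ) * A / N)
        = (1 / (dl E Finset.univ e.1 : ℝ)) * (N / A) := by
      field_simp
    rw [e1, e2, e3] at h3
    exact h3
  have hsum := Finset.sum_le_sum hterm
  rw [Finset.sum_const, nsmul_eq_mul, Finset.sum_add_distrib, Finset.sum_add_distrib,
    ← Finset.sum_mul, ← Finset.sum_mul, ← Finset.sum_mul] at hsum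
  have hr : (∑ e ∈ E, (1 : ℝ) / (dr E Finset.univ e.2 : ℝ)) * (N / Bt) ≤ N := by
    calc (∑ e ∈ E, (1 : ℝ) / (dr E Finset.univ e.2 : ℝ)) * (N / Bt)
        ≤ Bt * (N / Bt) := mul_le_mul_of_nonneg_right (sum_inv_r E) (by positivity)
      _ = N := by field_simp
  have hl : (∑ e ∈ E, (1 : ℝ) / (dl E Finset.univ e.1 : ℝ)) * (N / A) ≤ N := by
    calc (∑ e ∈ E, (1 : ℝ) / (dl E Finset.univ e.1 : ℝ)) * (N / A)
        ≤ A * (N / A) := mul_le_mul_of_nonneg_right (sum_inv_l E) (by positivity)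
      _ = N := by field_simp
  set W : ℝ := ∑ e ∈ E, (dl E Finset.univ e.1 : ℝ) * (dr E Finset.univ e.2 : ℝ) with hW
  have hfin : N ≤ W * (A * Bt / N ^ 2) := by
    rw [← hNdef] at hsum
    linarith
  have hfin2 : N ^ 3 ≤ W * (A * Bt) := by
    have h4 : N * N ^ 2 ≤ W * (A * Bt / N ^ 2) * N ^ 2 :=
      mul_le_mul_of_nonneg_right hfin (by positivity)
    have h5 : W * (A * Bt / N ^ 2) * N ^ 2 = W * (A * Bt) := by
      field_simp
    calc N ^ 3 = N * N ^ 2 := by ring
      _ ≤ _ := h4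
      _ = _ := h5
  have hcast : ((E.card ^ 3 : ℕ) : ℝ) ≤
      (((∑ e ∈ E, dl E Finset.univ e.1 * dr E Finset.univ e.2) *
        (Fintype.card α * Fintype.card β) : ℕ) : ℝ) := by
    push_cast
    exact hfin2
  exact_mod_cast hcast

end Pool.Agent.LibCD87
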