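import Pool.Agent.LibCD87.Defs
set_option autoImplicit false
namespace Pool.Agent.LibCD87
variable {α β : Type*} [DecidableEq α] [DecidableEq β] [Fintype α] [Fintype β]

private theorem L6b_sum_dl (E : Finset (α × β)) : ∑ x : α, dl E Finset.univ x = E.card := by
  rw [Finset.card_eq_sum_card_fiberwise (f := Prod.fst) (t := Finset.univ)
    (fun e _ => Finset.mem_coe.2 (Finset.mem_univ _))]
  refine Finset.sum_congr rfl fun x _ => ?_
  unfold dl
  refine Finset.card_nbij' (fun y => (x, y)) Prod.snd ?_ ?_ ?_ ?_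
  · intro y hy
    simp only [Finset.coe_filter, Finset.mem_univ, true_and, Set.mem_setOf_eq] at hy ⊢
    exact ⟨hy, trivial⟩
  · rintro ⟨a, b⟩ he
    simp only [Finset.coe_filter, Finset.mem_univ, true_and, Set.mem_setOf_eq] at he ⊢
    obtain ⟨h1, h2⟩ := he
    subst h2
    exact h1
  · intro y _
    rfl
  · rintro ⟨a, b⟩ he
    simp only [Finset.coe_filter, Set.mem_setOf_eq] at he ⊢
    obtain ⟨h1, h2⟩ := he
    subst h2
    rfl

private theorem L6b_sum_dr (E : Finset (α × β)) : ∑ y : β, dr E Finset.univ y = E.card := by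
  rw [Finset.card_eq_sum_card_fiberwise (f := Prod.snd) (t := Finset.univ)
    (fun e _ => Finset.mem_coe.2 (Finset.mem_univ _))]
  refine Finset.sum_congr rfl fun y _ => ?_
  unfold dr
  refine Finset.card_nbij' (fun x => (x, y)) Prod.fst ?_ ?_ ?_ ?_
  · intro x hx
    simp only [Finset.coe_filter, Finset.mem_univ, true_and, Set.mem_setOf_eq] at hx ⊢
    exact ⟨hx, trivial⟩
  · rintro ⟨a, b⟩ he
    simp only [Finset.coe_filter, Finset.mem_univ, true_and, Set.mem_setOf_eq] at he ⊢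
    obtain ⟨h1, h2⟩ := he
    subst h2
    exact h1
  · intro y _
    rfl
  · rintro ⟨a, b⟩ he
    simp only [Finset.coe_filter, Set.mem_setOf_eq] at he ⊢
    obtain ⟨h1, h2⟩ := he
    subst h2
    rfl

private theorem L6b_sq_le (u : ℝ) (hu : 0 ≤ u) : u ^ 2 ≤ ((1 + 2 * u) / 3) ^ 3 := by
  have h : 0 ≤ (u - 1) ^ 2 * (8 * u + 1) := by positivity
  nlinarith [h]

/-- Plan: p = card α, q = card β, m = E.card > 0, g > 0 real with g^3 = m^2/(p q) (rpow 1/3), u = dl x * p / m,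
v = dr y * q / m.
f^3 ≤ 1024 (dr y)^2 (dl x)^2 = 1024 g^6 u^2 v^2 ≤ 1024 g^6 ((1+2u)/3)^3 ((1+2v)/3)^3 because
(1+2u)^3 - 27 u^2 = (u-1)^2 (8u+1); so f ≤ 11 g^2 ((1+2u)/3)((1+2v)/3) (11^3 > 1024). In both cases
f x y ≤ 11 g^2 (1+2u)/3 (1+2v)/3 + 32 (dr y + dl x). Sum: Σ_x (1+2u)/3 = p, Σ_y (1+2v)/3 = q,
Σ_{x,y} (dr y + dl x) = (p+q) m. -/
theorem sum_bound (E : Finset (α × β)) (hE : 0 < E.card) (f : α → β → ℕ)
    (hf : ∀ x y, (f x y) ^ 3 ≤ 1024 * (dr E Finset.univ y) ^ 2 * (dl E Finset.univ x) ^ 2 ∨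
      f x y < 32 * (dr E Finset.univ y + dl E Finset.univ x)) :
    ∃ g : ℝ, 0 < g ∧ g ^ 3 * ((Fintype.card α : ℝ) * Fintype.card β) = (E.card : ℝ) ^ 2 ∧
      (∑ x : α, ∑ y : β, (f x y : ℝ)) ≤ 11 * g ^ 2 * ((Fintype.card α : ℝ) * Fintype.card β) +
        32 * ((Fintype.card α : ℝ) + Fintype.card β) * E.card := by
  obtain ⟨⟨x0, y0⟩, he0⟩ := Finset.card_pos.1 hE
  have hp : (0 : ℝ) < (Fintype.card α : ℝ) := by
    exact_mod_cast Fintype.card_pos_iff.2 ⟨x0⟩
  have hq : (0 : ℝ) < (Fintype.card β : ℝ) := by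
    exact_mod_cast Fintype.card_pos_iff.2 ⟨y0⟩
  have hm : (0 : ℝ) < (E.card : ℝ) := by exact_mod_cast hE
  have hdl : (∑ x : α, (dl E Finset.univ x : ℝ)) = (E.card : ℝ) := by
    exact_mod_cast L6b_sum_dl E
  have hdr : (∑ y : β, (dr E Finset.univ y : ℝ)) = (E.card : ℝ) := by
    exact_mod_cast L6b_sum_dr E
  generalize hpp : (Fintype.card α : ℝ) = p at hp ⊢
  generalize hqq : (Fintype.card β : ℝ) = q at hq ⊢
  generalize hmm : (E.card : ℝ) = m at hm hdl hdr ⊢
  -- the cube root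
  obtain ⟨g, hg, hg3⟩ : ∃ g : ℝ, 0 < g ∧ g ^ 3 = m ^ 2 / (p * q) := by
    have h0 : 0 < m ^ 2 / (p * q) := by positivity
    refine ⟨(m ^ 2 / (p * q)) ^ (1 / 3 : ℝ), Real.rpow_pos_of_pos h0 _, ?_⟩
    rw [← Real.rpow_natCast, ← Real.rpow_mul h0.le]
    norm_num
  have hg3' : g ^ 3 * (p * q) = m ^ 2 := by
    rw [hg3]; field_simp
  refine ⟨g, hg, hg3', ?_⟩
  -- weights
  let A : α → ℝ := fun x => (1 + 2 * ((dl E Finset.univ x : ℝ) * p / m)) / 3
  let B' : β → ℝ := fun y => (1 + 2 * ((dr E Finset.univ y : ℝ) * q / m)) / 3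
  have hA0 : ∀ x, 0 ≤ A x := fun x => by
    simp only [A]; positivity
  have hB0 : ∀ y, 0 ≤ B' y := fun y => by
    simp only [B']; positivity
  have hAsum : ∑ x, A x = p := by
    simp only [A]
    rw [← Finset.sum_div, Finset.sum_add_distrib, ← Finset.mul_sum, ← Finset.sum_div,
      ← Finset.sum_mul, hdl]
    simp only [Finset.sum_const, Finset.card_univ, nsmul_eq_mul, mul_one, hpp]
    field_simp
    ring
  have hBsum : ∑ y, B' y = q := by
    simp only [B']
    rw [← Finset.sum_div, Finset.sum_add_distrib, ← Finset.mul_sum, ← Finset.sum_div,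
      ← Finset.sum_mul, hdr]
    simp only [Finset.sum_const, Finset.card_univ, nsmul_eq_mul, mul_one, hqq]
    field_simp
    ring
  have key : ∀ x y, (f x y : ℝ) ≤ 11 * g ^ 2 * (A x * B' y) +
      32 * ((dr E Finset.univ y : ℝ) + (dl E Finset.univ x : ℝ)) := by
    intro x y
    have hAB : 0 ≤ A x * B' y := mul_nonneg (hA0 x) (hB0 y)
    rcases hf x y with h | h
    · have h' : (f x y : ℝ) ^ 3 ≤ 1024 * (dr E Finset.univ y : ℝ) ^ 2 *
          (dl E Finset.univ x : ℝ) ^ 2 := by exact_mod_cast h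
      have hu : ((dl E Finset.univ x : ℝ) * p / m) ^ 2 ≤ (A x) ^ 3 :=
        L6b_sq_le _ (by positivity)
      have hv : ((dr E Finset.univ y : ℝ) * q / m) ^ 2 ≤ (B' y) ^ 3 :=
        L6b_sq_le _ (by positivity)
      have hprod : ((dl E Finset.univ x : ℝ) * p / m) ^ 2 * ((dr E Finset.univ y : ℝ) * q / m) ^ 2 ≤
          (A x) ^ 3 * (B' y) ^ 3 :=
        mul_le_mul hu hv (by positivity) (pow_nonneg (hA0 x) 3)
      have hid : (dr E Finset.univ y : ℝ) ^ 2 * (dl E Finset.univ x : ℝ) ^ 2 =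
          (g ^ 3) ^ 2 * (((dl E Finset.univ x : ℝ) * p / m) ^ 2 *
            ((dr E Finset.univ y : ℝ) * q / m) ^ 2) := by
        rw [hg3]; field_simp
      have h3 : (f x y : ℝ) ^ 3 ≤ (11 * g ^ 2 * (A x * B' y)) ^ 3 := by
        calc (f x y : ℝ) ^ 3 ≤ 1024 * ((dr E Finset.univ y : ℝ) ^ 2 *
              (dl E Finset.univ x : ℝ) ^ 2) := by rw [← mul_assoc]; exact h'
          _ = 1024 * ((g ^ 3) ^ 2 * (((dl E Finset.univ x : ℝ) * p / m) ^ 2 *
            ((dr E Finset.univ y : ℝ) * q / m) ^ 2)) := by rw [hid]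
          _ ≤ 1331 * ((g ^ 3) ^ 2 * ((A x) ^ 3 * (B' y) ^ 3)) := by
              have h5 := mul_le_mul_of_nonneg_left hprod (a := (g ^ 3) ^ 2) (by positivity)
              have h6 : 0 ≤ (g ^ 3) ^ 2 * ((A x) ^ 3 * (B' y) ^ 3) :=
                mul_nonneg (by positivity) (mul_nonneg (pow_nonneg (hA0 x) 3)
                  (pow_nonneg (hB0 y) 3))
              linarith
          _ = (11 * g ^ 2 * (A x * B' y)) ^ 3 := by ring
      have h7 : (f x y : ℝ) ≤ 11 * g ^ 2 * (A x * B' y) :=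
        le_of_pow_le_pow_left₀ (by norm_num) (by positivity) h3
      have h8 : (0 : ℝ) ≤ 32 * ((dr E Finset.univ y : ℝ) + (dl E Finset.univ x : ℝ)) := by
        positivity
      linarith
    · have h' : (f x y : ℝ) ≤ 32 * ((dr E Finset.univ y : ℝ) + (dl E Finset.univ x : ℝ)) := by
        exact_mod_cast h.le
      have h9 : 0 ≤ 11 * g ^ 2 * (A x * B' y) := by positivity
      linarith
  calc (∑ x : α, ∑ y : β, (f x y : ℝ))
      ≤ ∑ x : α, ∑ y : β, (11 * g ^ 2 * (A x * B' y) +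
        32 * ((dr E Finset.univ y : ℝ) + (dl E Finset.univ x : ℝ))) :=
        Finset.sum_le_sum fun x _ => Finset.sum_le_sum fun y _ => key x y
    _ = 11 * g ^ 2 * (p * q) + 32 * (p + q) * m := by
        have h1 : ∀ x : α, ∑ y : β, (11 * g ^ 2 * (A x * B' y) +
            32 * ((dr E Finset.univ y : ℝ) + (dl E Finset.univ x : ℝ))) =
            11 * g ^ 2 * q * A x + 32 * m + 32 * q * (dl E Finset.univ x : ℝ) := by
          intro x
          rw [Finset.sum_add_distrib, ← Finset.mul_sum, ← Finset.mul_sum, ← Finset.mul_sum,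
            hBsum, Finset.sum_add_distrib, hdr]
          simp only [Finset.sum_const, Finset.card_univ, nsmul_eq_mul, hqq]
          ring
        rw [Finset.sum_congr rfl fun x _ => h1 x]
        rw [Finset.sum_add_distrib, Finset.sum_add_distrib, ← Finset.mul_sum, hAsum,
          ← Finset.mul_sum Finset.univ (fun x : α => (dl E Finset.univ x : ℝ)), hdl]
        simp only [Finset.sum_const, Finset.card_univ, nsmul_eq_mul, hpp]
        ring

end Pool.Agent.LibCD87
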