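import Pool.Agent.LibCD87.L5a
import Pool.Agent.LibCD87.L5b
import Pool.Agent.LibCD87.L6a
import Pool.Agent.LibCD87.L6b
set_option autoImplicit false
namespace Pool.Agent.LibCD87
variable {α β : Type*} [DecidableEq α] [DecidableEq β] [Fintype α] [Fintype β]

private theorem L7_real (m a b g : ℝ) (hm : 0 < m) (ha : 0 ≤ a) (hb : 0 ≤ b) (hN : 1 ≤ a + b)
    (hg3 : g ^ 3 * (a * b) = m ^ 2)
    (hmain : m ^ 3 ≤ (11 * g ^ 2 * (a * b) + 33 * (a + b) * m) * (a * b)) :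
    m ^ 5 ≤ 36000 * (a + b) ^ 8 := by
  have hp : 0 ≤ a * b := mul_nonneg ha hb
  have hN0 : 0 ≤ a + b := by linarith
  have hpN : a * b ≤ (a + b) ^ 2 := by nlinarith [sq_nonneg a, sq_nonneg b]
  rcases le_total (33 * (a + b) * m) (11 * g ^ 2 * (a * b)) with h | h
  · have h1 : m ^ 3 ≤ 22 * g ^ 2 * (a * b) ^ 2 := by
      calc m ^ 3 ≤ (11 * g ^ 2 * (a * b) + 33 * (a + b) * m) * (a * b) := hmain
        _ ≤ (11 * g ^ 2 * (a * b) + 11 * g ^ 2 * (a * b)) * (a * b) := by gcongr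
        _ = 22 * g ^ 2 * (a * b) ^ 2 := by ring
    have h2 : (m ^ 3) ^ 3 ≤ (22 * g ^ 2 * (a * b) ^ 2) ^ 3 :=
      pow_le_pow_left₀ (by positivity) h1 3
    have h3 : (22 * g ^ 2 * (a * b) ^ 2) ^ 3 = 10648 * (g ^ 3 * (a * b)) ^ 2 * (a * b) ^ 4 := by
      ring
    rw [h3, hg3] at h2
    have h4 : m ^ 4 * m ^ 5 ≤ m ^ 4 * (10648 * (a * b) ^ 4) := by
      calc m ^ 4 * m ^ 5 = (m ^ 3) ^ 3 := by ring
        _ ≤ 10648 * (m ^ 2) ^ 2 * (a * b) ^ 4 := h2
        _ = m ^ 4 * (10648 * (a * b) ^ 4) := by ring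
    have h5 : m ^ 5 ≤ 10648 * (a * b) ^ 4 := le_of_mul_le_mul_left h4 (by positivity)
    calc m ^ 5 ≤ 10648 * (a * b) ^ 4 := h5
      _ ≤ 10648 * ((a + b) ^ 2) ^ 4 := by gcongr
      _ = 10648 * (a + b) ^ 8 := by ring
      _ ≤ 36000 * (a + b) ^ 8 := by
        have : 0 ≤ (a + b) ^ 8 := by positivity
        linarith
  · have h1 : m ^ 3 ≤ 66 * (a + b) * m * (a * b) := by
      calc m ^ 3 ≤ (11 * g ^ 2 * (a * b) + 33 * (a + b) * m) * (a * b) := hmain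
        _ ≤ (33 * (a + b) * m + 33 * (a + b) * m) * (a * b) := by gcongr
        _ = 66 * (a + b) * m * (a * b) := by ring
    have h2 : m * m ^ 2 ≤ m * (66 * (a + b) * (a * b)) := by
      calc m * m ^ 2 = m ^ 3 := by ring
        _ ≤ 66 * (a + b) * m * (a * b) := h1
        _ = m * (66 * (a + b) * (a * b)) := by ring
    have h3 : m ^ 2 ≤ 66 * (a + b) * (a * b) := le_of_mul_le_mul_left h2 hm
    have h4 : m ^ 2 ≤ 66 * (a + b) ^ 3 := by
      calc m ^ 2 ≤ 66 * (a + b) * (a * b) := h3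
        _ ≤ 66 * (a + b) * (a + b) ^ 2 := by gcongr
        _ = 66 * (a + b) ^ 3 := by ring
    have h5 : (m ^ 5) ^ 2 ≤ (36000 * (a + b) ^ 8) ^ 2 := by
      calc (m ^ 5) ^ 2 = (m ^ 2) ^ 5 := by ring
        _ ≤ (66 * (a + b) ^ 3) ^ 5 := pow_le_pow_left₀ (by positivity) h4 5
        _ = 1252332576 * (a + b) ^ 15 * 1 := by ring
        _ ≤ 1296000000 * (a + b) ^ 15 * (a + b) := by gcongr <;> norm_num
        _ = (36000 * (a + b) ^ 8) ^ 2 := by ring
    exact (pow_le_pow_iff_left₀ (by positivity) (by positivity) two_ne_zero).1 h5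

/-- Plan: m = E.card > 0, π = card α * card β, N = card α + card β, π ≤ N^2. From walks_ge, walks_le, sum_bound
(with f = card B): m^3 ≤ π (11 g^2 π + 33 N m), g^3 π = m^2. If 33 N m ≤ 11 g^2 π: m^3 ≤ 22 g^2 π^2, cube:
m^9 ≤ 22^3 g^6 π^6 = 22^3 m^4 π^4, so m^5 ≤ 22^3 N^8. Else m^3 ≤ 66 π N m, m^2 ≤ 66 N^3, m^10 ≤ 66^5 N^15 ≤ (36000 N^8)^2. -/
theorem cube_bip (E : Finset (α × β)) (h : CubeFree E) :
    E.card ^ 5 ≤ 36000 * (Fintype.card α + Fintype.card β) ^ 8 := by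
  rcases Nat.eq_zero_or_pos E.card with h0 | hpos
  · rw [h0]
    simp
  obtain ⟨g, hg, hg3, hs⟩ := sum_bound E hpos (fun x y => (B E x y).card)
    (fun x y => B_bound E h x y)
  have h1 := walks_ge E
  have h2 := walks_le E
  obtain ⟨e, he⟩ := Finset.card_pos.1 hpos
  have hα : 1 ≤ Fintype.card α := Fintype.card_pos_iff.2 ⟨e.1⟩
  have h1' : (E.card : ℝ) ^ 3 ≤ ((∑ e ∈ E, dl E Finset.univ e.1 * dr E Finset.univ e.2 : ℕ) : ℝ) *
      ((Fintype.card α : ℝ) * Fintype.card β) := by exact_mod_cast h1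
  have h2' : ((∑ e ∈ E, dl E Finset.univ e.1 * dr E Finset.univ e.2 : ℕ) : ℝ) ≤
      ((∑ x : α, ∑ y : β, (B E x y).card : ℕ) : ℝ) +
        E.card * ((Fintype.card α : ℝ) + Fintype.card β) := by exact_mod_cast h2
  have h3' : ((∑ x : α, ∑ y : β, (B E x y).card : ℕ) : ℝ) =
      ∑ x : α, ∑ y : β, ((B E x y).card : ℝ) := by push_cast; rfl
  have hm : (0 : ℝ) < E.card := by exact_mod_cast hpos
  have hN : (1 : ℝ) ≤ (Fintype.card α : ℝ) + Fintype.card β := by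
    have : (1 : ℝ) ≤ Fintype.card α := by exact_mod_cast hα
    have : (0 : ℝ) ≤ Fintype.card β := by positivity
    linarith
  have key := L7_real (E.card : ℝ) (Fintype.card α) (Fintype.card β) g hm (by positivity)
    (by positivity) hN hg3 (by
      refine h1'.trans ?_
      have hpp : (0 : ℝ) ≤ (Fintype.card α : ℝ) * Fintype.card β := by positivity
      refine mul_le_mul_of_nonneg_right ?_ hpp
      rw [h3'] at h2'
      linarith)
  exact_mod_cast key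

end Pool.Agent.LibCD87
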