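import Pool.Agent.LibCD87.Defs
set_option autoImplicit false
namespace Pool.Agent.LibCD87

private theorem L8a_count {V : Type*} [Fintype V] [DecidableEq V] {u v : V} (huv : u ≠ v) :
    Fintype.card (V → Bool) ≤
      4 * ((Finset.univ : Finset (V → Bool)).filter (fun c => c u = true ∧ c v = false)).card := by
  set f : (V → Bool) → (V → Bool) := fun c => Function.update (Function.update c u true) v false with hf
  have h1 : (Finset.univ : Finset (V → Bool)).card ≤
      4 * ((Finset.univ : Finset (V → Bool)).image f).card := by
    refine Finset.card_le_mul_card_image _ 4 ?_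
    intro a _
    have h2 : ((Finset.univ : Finset (V → Bool)).filter (fun x => f x = a)).card ≤
        (Finset.univ : Finset (Bool × Bool)).card := by
      refine Finset.card_le_card_of_injOn (fun c => (c u, c v)) (fun _ _ => Finset.mem_coe.2 (Finset.mem_univ _)) ?_
      intro c hc c' hc' hcc
      have e1 : f c = a := (Finset.mem_filter.1 (Finset.mem_coe.1 hc)).2
      have e2 : f c' = a := (Finset.mem_filter.1 (Finset.mem_coe.1 hc')).2
      have e3 : c u = c' u := (Prod.ext_iff.1 hcc).1
      have e4 : c v = c' v := (Prod.ext_iff.1 hcc).2
      funext w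
      by_cases hv : w = v
      · rw [hv]; exact e4
      · by_cases hu : w = u
        · rw [hu]; exact e3
        · have e5 : f c w = f c' w := by rw [e1, e2]
          simp only [hf, Function.update_of_ne hv, Function.update_of_ne hu] at e5
          exact e5
    refine h2.trans ?_
    simp
  rw [← Finset.card_univ]
  refine h1.trans (Nat.mul_le_mul_left _ (Finset.card_le_card ?_))
  intro c hc
  obtain ⟨c', -, rfl⟩ := Finset.mem_image.1 hc
  refine Finset.mem_filter.2 ⟨Finset.mem_univ _, ?_, ?_⟩
  · simp only [hf, Function.update_of_ne huv, Function.update_self]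
  · simp only [hf, Function.update_self]

/-- MAX CUT. Plan: average over all c : V → Bool (or a maximal cut): the number of ordered pairs (u,v), adjacent, c u = true,
c v = false is at least a quarter of the number of ordered adjacent pairs. -/
theorem maxcut {V : Type*} [Fintype V] [DecidableEq V] (A : V → V → Prop) [DecidableRel A]
    (hs : ∀ u v, A u v → A v u) (hi : ∀ v, ¬ A v v) :
    ∃ c : V → Bool, ((Finset.univ : Finset (V × V)).filter (fun e => A e.1 e.2)).card ≤
      4 * ((Finset.univ : Finset (V × V)).filter (fun e => A e.1 e.2 ∧ c e.1 = true ∧ c e.2 = false)).card := by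
  have hsum : ∑ _c : V → Bool, ((Finset.univ : Finset (V × V)).filter (fun e => A e.1 e.2)).card ≤
      ∑ c : V → Bool, 4 * ((Finset.univ : Finset (V × V)).filter
        (fun e => A e.1 e.2 ∧ c e.1 = true ∧ c e.2 = false)).card := by
    calc ∑ _c : V → Bool, ((Finset.univ : Finset (V × V)).filter (fun e => A e.1 e.2)).card
        = ∑ _e ∈ (Finset.univ : Finset (V × V)).filter (fun e => A e.1 e.2), Fintype.card (V → Bool) := by
          rw [Finset.sum_const, Finset.sum_const, Finset.card_univ, smul_eq_mul, smul_eq_mul, mul_comm]
      _ ≤ ∑ e ∈ (Finset.univ : Finset (V × V)).filter (fun e => A e.1 e.2),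
            4 * ((Finset.univ : Finset (V → Bool)).filter (fun c => c e.1 = true ∧ c e.2 = false)).card := by
          refine Finset.sum_le_sum fun e he => L8a_count ?_
          intro h0
          have h1 := (Finset.mem_filter.1 he).2
          rw [h0] at h1
          exact hi _ h1
      _ = 4 * ∑ e ∈ (Finset.univ : Finset (V × V)).filter (fun e => A e.1 e.2),
            ∑ c : V → Bool, (if c e.1 = true ∧ c e.2 = false then 1 else 0) := by
          rw [Finset.mul_sum]
          refine Finset.sum_congr rfl fun e _ => ?_
          rw [Finset.card_filter]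
      _ = 4 * ∑ c : V → Bool, ∑ e ∈ (Finset.univ : Finset (V × V)).filter (fun e => A e.1 e.2),
            (if c e.1 = true ∧ c e.2 = false then 1 else 0) := by rw [Finset.sum_comm]
      _ = _ := by
          rw [Finset.mul_sum]
          refine Finset.sum_congr rfl fun c _ => ?_
          rw [← Finset.filter_filter, Finset.card_filter (fun e : V × V => c e.1 = true ∧ c e.2 = false)]
  obtain ⟨c, -, hc⟩ := Finset.exists_le_of_sum_le (Finset.univ_nonempty) hsum
  exact ⟨c, hc⟩

end Pool.Agent.LibCD87
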