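import Pool.Agent.LibCD87.Defs
set_option autoImplicit false
namespace Pool.Agent.LibCD87

private def L8b_idx (a b c : Bool) : Fin 8 :=
  match a, b, c with
  | false, false, false => 0
  | true, false, false => 5
  | false, true, false => 6
  | false, false, true => 7
  | true, true, false => 1
  | false, true, true => 2
  | true, false, true => 3
  | true, true, true => 4

private theorem L8b_inj : ∀ a b c a' b' c' : Bool, L8b_idx a b c = L8b_idx a' b' c' →
    a = a' ∧ b = b' ∧ c = c' := by
  decide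

private theorem L8b_key : ∀ u v : Fin 3 → Bool,
    (u ≠ v ∧ (hammingDist u v = 1 ∨ hammingDist v u = 1)) →
    (v 0 = !(u 0) ∧ v 1 = u 1 ∧ v 2 = u 2) ∨ (v 0 = u 0 ∧ v 1 = !(u 1) ∧ v 2 = u 2) ∨
      (v 0 = u 0 ∧ v 1 = u 1 ∧ v 2 = !(u 2)) := by
  decide

/-- a cube in the bipartite part gives a copy of the cube. Plan: f v by cases on v 0, v 1, v 2:
000 ↦ x, 100 ↦ a1, 010 ↦ a2, 001 ↦ a3, 110 ↦ b1, 011 ↦ b2, 101 ↦ b3, 111 ↦ y. -/
theorem cube_of {V : Type*} (R : SimpleGraph V) (x b1 b2 b3 y a1 a2 a3 : V)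
    (hd : [x, b1, b2, b3, y, a1, a2, a3].Nodup)
    (h1 : R.Adj x a1) (h2 : R.Adj x a2) (h3 : R.Adj x a3) (h4 : R.Adj b1 a1) (h5 : R.Adj b1 a2)
    (h6 : R.Adj b2 a2) (h7 : R.Adj b2 a3) (h8 : R.Adj b3 a3) (h9 : R.Adj b3 a1)
    (h10 : R.Adj b1 y) (h11 : R.Adj b2 y) (h12 : R.Adj b3 y) :
    ∃ f : cube →g R, Function.Injective f := by
  have hinj := List.nodup_iff_injective_get.1 hd
  have e1 : ∀ a b c : Bool, R.Adj ([x, b1, b2, b3, y, a1, a2, a3].get (L8b_idx a b c))
      ([x, b1, b2, b3, y, a1, a2, a3].get (L8b_idx (!a) b c)) := by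
    intro a b c
    cases a <;> cases b <;> cases c <;>
      first | exact h1 | exact h1.symm | exact h2 | exact h2.symm | exact h3 | exact h3.symm |
        exact h4 | exact h4.symm | exact h5 | exact h5.symm | exact h6 | exact h6.symm |
        exact h7 | exact h7.symm | exact h8 | exact h8.symm | exact h9 | exact h9.symm |
        exact h10 | exact h10.symm | exact h11 | exact h11.symm | exact h12 | exact h12.symm
  have e2 : ∀ a b c : Bool, R.Adj ([x, b1, b2, b3, y, a1, a2, a3].get (L8b_idx a b c))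
      ([x, b1, b2, b3, y, a1, a2, a3].get (L8b_idx a (!b) c)) := by
    intro a b c
    cases a <;> cases b <;> cases c <;>
      first | exact h1 | exact h1.symm | exact h2 | exact h2.symm | exact h3 | exact h3.symm |
        exact h4 | exact h4.symm | exact h5 | exact h5.symm | exact h6 | exact h6.symm |
        exact h7 | exact h7.symm | exact h8 | exact h8.symm | exact h9 | exact h9.symm |
        exact h10 | exact h10.symm | exact h11 | exact h11.symm | exact h12 | exact h12.symm
  have e3 : ∀ a b c : Bool, R.Adj ([x, b1, b2, b3, y, a1, a2, a3].get (L8b_idx a b c))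
      ([x, b1, b2, b3, y, a1, a2, a3].get (L8b_idx a b (!c))) := by
    intro a b c
    cases a <;> cases b <;> cases c <;>
      first | exact h1 | exact h1.symm | exact h2 | exact h2.symm | exact h3 | exact h3.symm |
        exact h4 | exact h4.symm | exact h5 | exact h5.symm | exact h6 | exact h6.symm |
        exact h7 | exact h7.symm | exact h8 | exact h8.symm | exact h9 | exact h9.symm |
        exact h10 | exact h10.symm | exact h11 | exact h11.symm | exact h12 | exact h12.symm
  refine ⟨⟨fun v => [x, b1, b2, b3, y, a1, a2, a3].get (L8b_idx (v 0) (v 1) (v 2)), ?_⟩, ?_⟩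
  · intro u v huv
    rw [SimpleGraph.fromRel_adj] at huv
    rcases L8b_key u v huv with ⟨p, q, r⟩ | ⟨p, q, r⟩ | ⟨p, q, r⟩
    · rw [p, q, r]
      exact e1 _ _ _
    · rw [p, q, r]
      exact e2 _ _ _
    · rw [p, q, r]
      exact e3 _ _ _
  · intro u v huv
    obtain ⟨p, q, r⟩ := L8b_inj _ _ _ _ _ _ (hinj huv)
    funext i
    fin_cases i
    · exact p
    · exact q
    · exact r

end Pool.Agent.LibCD87
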