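import Pool.Agent.LibCD87.L7
import Pool.Agent.LibCD87.L8a
import Pool.Agent.LibCD87.L8b
set_option autoImplicit false
namespace Pool.Agent.LibCD87

private lemma sum_deg {V : Type*} [Fintype V] [DecidableEq V] (R : SimpleGraph V) [DecidableRel R.Adj] :
    ∑ v : V, R.degree v = ((Finset.univ : Finset (V × V)).filter (fun e => R.Adj e.1 e.2)).card := by
  classical
  rw [Finset.card_filter, Fintype.sum_prod_type]
  refine Finset.sum_congr rfl fun v _ => ?_
  rw [← SimpleGraph.card_neighborFinset_eq_degree, SimpleGraph.neighborFinset_eq_filter, Finset.card_filter]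

/-- TURAN for the cube: number of ordered adjacent pairs. Plan: maxcut, E = the crossing pairs as a Finset (V × V); CubeFree E by cube_of
(x, b_i have colour true, y, a_i colour false, so they are different); cube_bip with α = β = V: (m/4)^5 ≤ 36000 (2N)^8. -/
theorem turan {V : Type*} [Fintype V] [DecidableEq V] (R : SimpleGraph V) [DecidableRel R.Adj]
    (h : ¬ ∃ f : cube →g R, Function.Injective f) :
    (∑ v : V, R.degree v) ^ 5 ≤ 4 ^ 5 * (36000 * 2 ^ 8) * (Fintype.card V) ^ 8 := by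
  obtain ⟨c, hc⟩ := maxcut R.Adj (fun u v huv => huv.symm) (fun v => SimpleGraph.irrefl R)
  set E : Finset (V × V) := (Finset.univ : Finset (V × V)).filter
    (fun e => R.Adj e.1 e.2 ∧ c e.1 = true ∧ c e.2 = false) with hE
  have hmem : ∀ u v : V, (u, v) ∈ E ↔ R.Adj u v ∧ c u = true ∧ c v = false := by
    intro u v
    rw [hE, Finset.mem_filter]
    simp only [Finset.mem_univ, true_and]
  have hfree : CubeFree E := by
    rintro ⟨x, b1, b2, b3, y, a1, a2, a3, n1, n2, n3, n4, n5, n6, n7, n8, n9, n10, n11, n12,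
      e1, e2, e3, e4, e5, e6, e7, e8, e9, e10, e11, e12⟩
    rw [hmem] at e1 e2 e3 e4 e5 e6 e7 e8 e9 e10 e11 e12
    apply h
    have hne : ∀ u v : V, c u = true → c v = false → u ≠ v := by
      intro u v hu hv huv
      rw [huv, hv] at hu
      exact Bool.noConfusion hu
    have cx := e1.2.1
    have cb1 := e4.2.1
    have cb2 := e6.2.1
    have cb3 := e8.2.1
    have cy := e10.2.2
    have ca1 := e1.2.2
    have ca2 := e2.2.2
    have ca3 := e3.2.2
    refine cube_of R x b1 b2 b3 y a1 a2 a3 ?_ e1.1 e2.1 e3.1 e4.1 e5.1 e6.1 e7.1 e8.1 e9.1 e10.1 e11.1 e12.1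
    simp only [List.nodup_cons, List.mem_cons, List.not_mem_nil, or_false, not_or, not_false_eq_true,
      List.nodup_nil, and_true]
    exact ⟨⟨n1, n2, n3, hne _ _ cx cy, hne _ _ cx ca1, hne _ _ cx ca2, hne _ _ cx ca3⟩,
      ⟨n4, n5, hne _ _ cb1 cy, hne _ _ cb1 ca1, hne _ _ cb1 ca2, hne _ _ cb1 ca3⟩,
      ⟨n6, hne _ _ cb2 cy, hne _ _ cb2 ca1, hne _ _ cb2 ca2, hne _ _ cb2 ca3⟩,
      ⟨hne _ _ cb3 cy, hne _ _ cb3 ca1, hne _ _ cb3 ca2, hne _ _ cb3 ca3⟩,
      ⟨n7, n8, n9⟩, ⟨n10, n11⟩, n12⟩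
  have hb := cube_bip E hfree
  rw [sum_deg R]
  calc ((Finset.univ : Finset (V × V)).filter (fun e => R.Adj e.1 e.2)).card ^ 5
      ≤ (4 * E.card) ^ 5 := Nat.pow_le_pow_left hc 5
    _ = 4 ^ 5 * E.card ^ 5 := by ring
    _ ≤ 4 ^ 5 * (36000 * (Fintype.card V + Fintype.card V) ^ 8) := Nat.mul_le_mul_left _ hb
    _ = 4 ^ 5 * (36000 * 2 ^ 8) * (Fintype.card V) ^ 8 := by ring

end Pool.Agent.LibCD87
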